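import Pool.Agent.U293.PA.Deg

/-!
# The triangular group is solvable
-/

set_option autoImplicit false

namespace Pool.Agent.U293.PA

open MvPolynomial

variable {K : Type} [Field K]

/-- `tX₀ = a X₀ + p(X₁)`, `tX₁ = b X₁ + c` -/
def Tp (t : Au K) (a b c : K) (p : Polynomial K) : Prop :=
  t (X 0) = C a * X 0 + Polynomial.aeval (X 1) p ∧ t (X 1) = C b * X 1 + C c

theorem tp_mul {t s : Au K} {a b c a' b' c' : K} {p p' : Polynomial K} (ht : Tp t a b c p)
    (hs : Tp s a' b' c' p') : Tp (t * s) (a' * a) (b' * b) (b' * c + c')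
      (Polynomial.C a' * p + p'.comp (Polynomial.C b * Polynomial.X + Polynomial.C c)) := by
  constructor
  · have e : Polynomial.aeval (X 1 : Rg K) (Polynomial.C a' * p) =
        C a' * Polynomial.aeval (X 1 : Rg K) p := by
      rw [map_mul, Polynomial.aeval_C, MvPolynomial.algebraMap_eq]
    rw [AlgEquiv.mul_apply, hs.1, map_add, map_mul, gC, g_aeval, ht.1, ht.2, aeval_lin,
      map_add (Polynomial.aeval (X 1 : Rg K)), e]
    simp only [C_mul]
    ring
  · rw [AlgEquiv.mul_apply, hs.2, map_add, map_mul, gC, gC, ht.2]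
    simp only [C_add, C_mul]
    ring

/-- the values of the parameters -/
noncomputable def fa (t : Au K) : K :=
  eval (fun i : Fin 2 => if i = 0 then (1 : K) else 0) (t (X 0)) - eval (fun _ => (0 : K)) (t (X 0))

noncomputable def fb (t : Au K) : K :=
  eval (fun i : Fin 2 => if i = 0 then (0 : K) else 1) (t (X 1)) - eval (fun _ => (0 : K)) (t (X 1))

noncomputable def fc (t : Au K) : K := eval (fun _ => (0 : K)) (t (X 1))

theorem eval_aeval_X (v : Fin 2 → K) (p : Polynomial K) :
    eval v (Polynomial.aeval (X 1 : Rg K) p) = Polynomial.eval (v 1) p := by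
  rw [← MvPolynomial.coe_aeval_eq_eval, ← Polynomial.coe_aeval_eq_eval]
  change (aeval v) _ = _
  rw [← Polynomial.aeval_algHom_apply]
  congr 1
  simp

theorem fa_eq {t : Au K} {a b c : K} {p : Polynomial K} (h : Tp t a b c p) : fa t = a := by
  unfold fa
  rw [h.1, map_add, map_add, eval_aeval_X, eval_aeval_X]
  simp

theorem fb_eq {t : Au K} {a b c : K} {p : Polynomial K} (h : Tp t a b c p) : fb t = b := by
  unfold fb
  rw [h.2]
  simp

theorem fc_eq {t : Au K} {a b c : K} {p : Polynomial K} (h : Tp t a b c p) : fc t = c := by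
  unfold fc
  rw [h.2]
  simp

theorem tp_of (t : ↥(triG (⊤ : Subfield K))) : ∃ a b c p, Tp (t : Au K) a b c p := by
  obtain ⟨a, b, c, p, h0, h1⟩ := tri_top.1 t.2
  exact ⟨a, b, c, p, h0, h1⟩

/-- the diagonal part -/
noncomputable def chi : ↥(triG (⊤ : Subfield K)) →* (K × K)ˣ :=
  MonoidHom.toHomUnits
    { toFun := fun t => (fa (t : Au K), fb (t : Au K))
      map_one' := by
        have h : Tp (1 : Au K) 1 1 0 0 := ⟨by simp, by simp⟩
        have h1 := fa_eq h
        have h2 := fb_eq h
        ext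
        · exact h1
        · exact h2
      map_mul' := fun t s => by
        obtain ⟨a, b, c, p, h⟩ := tp_of t
        obtain ⟨a', b', c', p', h'⟩ := tp_of s
        have h2 := tp_mul h h'
        ext
        · change fa ((t : Au K) * (s : Au K)) = fa (t : Au K) * fa (s : Au K)
          rw [fa_eq h2, fa_eq h, fa_eq h']
          ring
        · change fb ((t : Au K) * (s : Au K)) = fb (t : Au K) * fb (s : Au K)
          rw [fb_eq h2, fb_eq h, fb_eq h']
          ring }

theorem chi_ker (t : (chi (K := K)).ker) : ∃ c p, Tp ((t : ↥(triG (⊤ : Subfield K))) : Au K) 1 1 c p := by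
  obtain ⟨a, b, c, p, h⟩ := tp_of (t : ↥(triG (⊤ : Subfield K)))
  have h1 := (MonoidHom.mem_ker).1 t.2
  have h2 := congrArg Units.val h1
  have h3 : (fa ((t : ↥(triG (⊤ : Subfield K))) : Au K), fb ((t : ↥(triG (⊤ : Subfield K))) : Au K)) =
      ((1, 1) : K × K) := h2
  rw [fa_eq h, fb_eq h, Prod.mk.injEq] at h3
  rw [h3.1, h3.2] at h
  exact ⟨c, p, h⟩

/-- the translation part -/
noncomputable def chi2 : (chi (K := K)).ker →* Multiplicative K where
  toFun t := Multiplicative.ofAdd (fc ((t : ↥(triG (⊤ : Subfield K))) : Au K))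
  map_one' := by
    have h : Tp (1 : Au K) 1 1 0 0 := ⟨by simp, by simp⟩
    have h1 := fc_eq h
    change Multiplicative.ofAdd (fc (1 : Au K)) = 1
    rw [h1]
    rfl
  map_mul' t s := by
    obtain ⟨c, p, h⟩ := chi_ker t
    obtain ⟨c', p', h'⟩ := chi_ker s
    have h2 := tp_mul h h'
    change Multiplicative.ofAdd (fc (((t : ↥(triG (⊤ : Subfield K))) : Au K) *
      ((s : ↥(triG (⊤ : Subfield K))) : Au K))) = _
    rw [fc_eq h2, fc_eq h, fc_eq h', ← ofAdd_add]
    congr 1
    ring

theorem chi2_ker (t : (chi2 (K := K)).ker) :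
    ∃ p, Tp (((t : (chi (K := K)).ker) : ↥(triG (⊤ : Subfield K))) : Au K) 1 1 0 p := by
  obtain ⟨c, p, h⟩ := chi_ker (t : (chi (K := K)).ker)
  have h1 := (MonoidHom.mem_ker).1 t.2
  have h2 : fc (((t : (chi (K := K)).ker) : ↥(triG (⊤ : Subfield K))) : Au K) = 0 := h1
  rw [fc_eq h] at h2
  rw [h2] at h
  exact ⟨p, h⟩

theorem tri_solvable : Group.IsSolvable ↥(triG (⊤ : Subfield K)) := by
  have i2 : Group.IsSolvable (chi2 (K := K)).ker := by
    apply Group.isSolvable_of_comm
    intro t s
    obtain ⟨p, h⟩ := chi2_ker t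
    obtain ⟨p', h'⟩ := chi2_ker s
    have h1 := tp_mul h h'
    have h2 := tp_mul h' h
    apply Subtype.ext
    apply Subtype.ext
    apply Subtype.ext
    apply ext_of
    · refine h1.1.trans (Eq.trans ?_ h2.1.symm)
      congr 2
      simp
      ring
    · exact h1.2.trans h2.2.symm
  have i1 : Group.IsSolvable (chi (K := K)).ker :=
    Group.isSolvable_of_ker_le_range (chi2 (K := K)).ker.subtype (chi2 (K := K)) (by
      rw [Subgroup.range_subtype])
  exact Group.isSolvable_of_ker_le_range (chi (K := K)).ker.subtype (chi (K := K)) (by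
      rw [Subgroup.range_subtype])

theorem tri_solvable' (k : Subfield K) : Group.IsSolvable ↥(triG k) :=
  haveI := tri_solvable (K := K)
  Group.isSolvable_of_isSolvable_injective (f := Subgroup.inclusion (triG_mono (le_top : k ≤ ⊤)))
    (Subgroup.inclusion_injective _)

end Pool.Agent.U293.PA
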