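import Pool.Agent.U293.PA.Cls
import Pool.Agent.U293.PA.Solv

/-!
# Fields
-/

set_option autoImplicit false

namespace Pool.Agent.U293.PA

open MvPolynomial
open Pool.Agent.Y110.FJ (ClosedE)
open Pool.Agent.N509.TX (AcylF of_fg C_stab)
open Pool.Agent.R941.FJ (C_equiv C_le)

/-! ### roots of unity in finitely generated domains -/

/-- the roots of unity in a field which is finite over `ℚ` -/
theorem fin_nf (L : Type) [Field L] [Algebra ℚ L] [Module.Finite ℚ L] :
    {z : L | ∃ n : ℕ, 0 < n ∧ z ^ n = 1}.Finite := by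
  have hch : CharZero L := algebraRat.charZero L
  have hnf : NumberField L := by
    refine { to_charZero := hch, to_finiteDimensional := ?_ }
    convert (inferInstance : Module.Finite ℚ L)
    exact Subsingleton.elim _ _
  refine (NumberField.Embeddings.finite_of_norm_le L ℂ 1).subset ?_
  rintro z ⟨n, hn, hz⟩
  refine ⟨⟨Polynomial.X ^ n - 1, Polynomial.monic_X_pow_sub_C 1 hn.ne', ?_⟩, fun φ => ?_⟩
  · simp [hz]
  · have h1 : ‖φ z‖ ^ n = 1 := by
      rw [← norm_pow, ← map_pow, hz, map_one, norm_one]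
    have h2 : ‖φ z‖ = 1 := by
      exact (pow_eq_one_iff_of_nonneg (norm_nonneg _) hn.ne').1 h1
    exact h2.le

theorem fin_mu {K : Type} [Field K] [CharZero K] (S : Finset K) :
    {z : K | z ∈ Algebra.adjoin ℚ (S : Set K) ∧ ∃ n : ℕ, 0 < n ∧ z ^ n = 1}.Finite := by
  classical
  let A := Algebra.adjoin ℚ (S : Set K)
  have hft : Algebra.FiniteType ℚ A := by
    rw [← Subalgebra.fg_iff_finiteType]
    exact ⟨S, rfl⟩
  obtain ⟨M, hM⟩ := Ideal.exists_maximal A
  have hft2 : Algebra.FiniteType ℚ (A ⧸ M) :=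
    Algebra.FiniteType.of_surjective (Ideal.Quotient.mkₐ ℚ M) (Ideal.Quotient.mkₐ_surjective ℚ M)
  let _ : Field (A ⧸ M) := Ideal.Quotient.field M
  have hfin : Module.Finite ℚ (A ⧸ M) := finite_of_finite_type_of_isJacobsonRing ℚ (A ⧸ M)
  have h1 := fin_nf (A ⧸ M)
  have hch : CharZero (A ⧸ M) := algebraRat.charZero _
  -- the map is injective on the roots of unity
  have hinj : ∀ z : A, (∃ n : ℕ, 0 < n ∧ z ^ n = 1) → Ideal.Quotient.mk M z = 1 → z = 1 := by
    rintro z ⟨n, hn, hz⟩ h2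
    by_contra hne
    have h3 : ∑ i ∈ Finset.range n, z ^ i = 0 := by
      have h4 : (∑ i ∈ Finset.range n, z ^ i) * (z - 1) = 0 := by
        rw [geom_sum_mul, hz, sub_self]
      exact (mul_eq_zero.1 h4).resolve_right (sub_ne_zero.2 hne)
    have h5 := congrArg (Ideal.Quotient.mk M) h3
    rw [map_sum, map_zero] at h5
    simp only [map_pow, h2, one_pow, Finset.sum_const, Finset.card_range, nsmul_eq_mul, mul_one] at h5
    have : n = 0 := by exact_mod_cast h5
    omega
  have h6 : {z : A | ∃ n : ℕ, 0 < n ∧ z ^ n = 1}.Finite := by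
    refine Set.Finite.of_finite_image (f := Ideal.Quotient.mk M) (h1.subset ?_) ?_
    · rintro _ ⟨z, ⟨n, hn, hz⟩, rfl⟩
      exact ⟨n, hn, by rw [← map_pow, hz, map_one]⟩
    · rintro z ⟨n, hn, hz⟩ w ⟨m, hm, hw⟩ hzw
      have hz' : z * z ^ (n - 1) = 1 := by rw [← pow_succ', Nat.sub_add_cancel hn, hz]
      have h7 := hinj (w * z ^ (n - 1)) ⟨n * m, Nat.mul_pos hn hm, by
        rw [mul_pow, mul_comm n m, pow_mul w, hw, one_pow, one_mul, ← pow_mul, mul_comm m n,
          ← mul_assoc, mul_comm (n - 1) n, mul_assoc, pow_mul, hz, one_pow]⟩ (by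
        rw [map_mul, map_pow]
        have : Ideal.Quotient.mk M w = Ideal.Quotient.mk M z := hzw.symm
        rw [this, ← map_pow, ← map_mul, hz', map_one])
      calc z = z * (w * z ^ (n - 1)) := by rw [h7, mul_one]
        _ = w * (z * z ^ (n - 1)) := by ring
        _ = w := by rw [hz', mul_one]
  refine (h6.image (fun z : A => (z : K))).subset ?_
  rintro z ⟨hzA, n, hn, hz⟩
  exact ⟨⟨z, hzA⟩, ⟨n, hn, Subtype.ext hz⟩, rfl⟩

/-! ### automorphisms defined over a subring -/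

variable {K : Type} [Field K]

/-- the polynomials with coefficients in `R` -/
noncomputable def SR (R : Subring K) : Subring (Rg K) := (MvPolynomial.map R.subtype).range

theorem mem_SR {R : Subring K} {P : Rg K} : P ∈ SR R ↔ ∀ m, P.coeff m ∈ R := by
  constructor
  · rintro ⟨Q, rfl⟩ m
    rw [coeff_map]
    exact (Q.coeff m).2
  · intro h
    have h1 : P ∈ Set.range (MvPolynomial.map (σ := Fin 2) R.subtype) := by
      rw [MvPolynomial.mem_range_map_iff_coeffs_subset]
      intro x hx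
      rw [Finset.mem_coe, MvPolynomial.mem_coeffs_iff] at hx
      obtain ⟨m, _, rfl⟩ := hx
      exact ⟨⟨_, h m⟩, rfl⟩
    exact h1

theorem SR_mono {R R' : Subring K} (h : R ≤ R') : SR R ≤ SR R' := by
  intro P hP
  rw [mem_SR] at hP ⊢
  exact fun m => h (hP m)

theorem map_SR {R : Subring K} {g : Au K} (hg : ∀ i, g (X i) ∈ SR R) {P : Rg K} (hP : P ∈ SR R) :
    g P ∈ SR R := by
  obtain ⟨Q, rfl⟩ := hP
  induction Q using MvPolynomial.induction_on with
  | C a =>
    rw [map_C]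
    rw [gC]
    exact ⟨C a, map_C _ _⟩
  | add p q hp hq =>
    rw [map_add, map_add]
    exact add_mem hp hq
  | mul_X p i hp =>
    rw [map_mul, map_X, map_mul]
    exact mul_mem hp (hg i)

/-- the automorphisms defined over `R` -/
noncomputable def DR (R : Subring K) : Subgroup (Au K) where
  carrier := {g | (∀ i, g (X i) ∈ SR R) ∧ ∀ i, (g⁻¹ : Au K) (X i) ∈ SR R}
  one_mem' := by
    have h : ∀ i, (X i : Rg K) ∈ SR R := fun i => ⟨X i, map_X _ _⟩
    exact ⟨h, fun i => by rw [inv_one]; exact h i⟩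
  mul_mem' := by
    rintro a b ⟨ha, ha'⟩ ⟨hb, hb'⟩
    refine ⟨fun i => ?_, fun i => ?_⟩
    · rw [AlgEquiv.mul_apply]
      exact map_SR ha (hb i)
    · rw [mul_inv_rev, AlgEquiv.mul_apply]
      exact map_SR hb' (ha' i)
  inv_mem' := by
    rintro a ⟨ha, ha'⟩
    exact ⟨ha', by rw [inv_inv]; exact ha⟩

theorem DR_mono {R R' : Subring K} (h : R ≤ R') : DR R ≤ DR R' := fun _ hg =>
  ⟨fun i => SR_mono h (hg.1 i), fun i => SR_mono h (hg.2 i)⟩

/-- every automorphism is defined over a finitely generated ring -/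
theorem exists_DR (g : Au K) : ∃ S : Finset K, ∀ R : Subring K, (S : Set K) ⊆ R → g ∈ DR R := by
  classical
  refine ⟨Finset.univ.biUnion fun i : Fin 2 => (g (X i)).coeffs ∪ ((g⁻¹ : Au K) (X i)).coeffs,
    fun R hR => ⟨fun i => mem_SR.2 fun m => ?_, fun i => mem_SR.2 fun m => ?_⟩⟩
  · by_cases h : (g (X i)).coeff m = 0
    · rw [h]; exact zero_mem _
    · apply hR
      simp only [Finset.coe_biUnion, Set.mem_iUnion]
      refine ⟨i, Finset.mem_coe.2 (Finset.mem_univ _), ?_⟩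
      rw [Finset.mem_coe, Finset.mem_union, MvPolynomial.mem_coeffs_iff]
      exact Or.inl ⟨m, MvPolynomial.mem_support_iff.2 h, rfl⟩
  · by_cases h : ((g⁻¹ : Au K) (X i)).coeff m = 0
    · rw [h]; exact zero_mem _
    · apply hR
      simp only [Finset.coe_biUnion, Set.mem_iUnion]
      refine ⟨i, Finset.mem_coe.2 (Finset.mem_univ _), ?_⟩
      rw [Finset.mem_coe, Finset.mem_union, MvPolynomial.mem_coeffs_iff (p := (g⁻¹ : Au K) (X i))]
      exact Or.inr ⟨m, MvPolynomial.mem_support_iff.2 h, rfl⟩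

/-- the tame group -/
noncomputable abbrev Tame (K : Type) [Field K] : Subgroup (Au K) := affG ⊤ ⊔ triG ⊤

theorem pair_R (D : Subgroup (Au K)) : Pair (affG ⊤ ⊓ D) (triG ⊤ ⊓ D) where
  hA := inf_le_left
  hB := inf_le_left
  hAB := fun _ hg h => ⟨h, hg.2⟩
  hBA := fun _ hg h => ⟨h, hg.2⟩

theorem exists_R {g : Au K} (hg : g ∈ Tame K) :
    ∃ S : Finset K, ∀ R : Subring K, (S : Set K) ⊆ R → g ∈ (affG ⊤ ⊓ DR R) ⊔ (triG ⊤ ⊓ DR R) := by
  classical
  let T : Subgroup (Au K) :=
    { carrier := {g | ∃ S : Finset K, ∀ R : Subring K, (S : Set K) ⊆ R →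
        g ∈ (affG ⊤ ⊓ DR R) ⊔ (triG ⊤ ⊓ DR R)}
      one_mem' := ⟨∅, fun R _ => one_mem _⟩
      mul_mem' := by
        rintro a b ⟨S, hS⟩ ⟨S', hS'⟩
        refine ⟨S ∪ S', fun R hR => mul_mem (hS R ?_) (hS' R ?_)⟩
        · exact (Finset.coe_subset.2 Finset.subset_union_left).trans hR
        · exact (Finset.coe_subset.2 Finset.subset_union_right).trans hR
      inv_mem' := by
        rintro a ⟨S, hS⟩
        exact ⟨S, fun R hR => inv_mem (hS R hR)⟩ }
  have h1 : affG ⊤ ≤ T := by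
    intro a ha
    obtain ⟨S, hS⟩ := exists_DR a
    exact ⟨S, fun R hR => Subgroup.mem_sup_left ⟨ha, hS R hR⟩⟩
  have h2 : triG ⊤ ≤ T := by
    intro a ha
    obtain ⟨S, hS⟩ := exists_DR a
    exact ⟨S, fun R hR => Subgroup.mem_sup_right ⟨ha, hS R hR⟩⟩
  exact (sup_le h1 h2) hg

variable {C : ∀ (G : Type) [Group G], Prop}

/-- characteristic zero -/
theorem main_zero [CharZero K] (hC : ClosedE C) (hAc : AcylF C)
    (hS : ∀ (G : Type) [Group G], Group.IsSolvable G → C G)
    (hA : C (affG (⊤ : Subfield K))) : C (Tame K) := by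
  classical
  refine of_fg hC fun H hH => ?_
  obtain ⟨T, hT⟩ := (Group.fg_iff_subgroup_fg _).1 hH
  -- a finite set of coefficients
  have h1 : ∀ t : Tame K, ∃ S : Finset K, ∀ R : Subring K, (S : Set K) ⊆ R →
      (t : Au K) ∈ (affG ⊤ ⊓ DR R) ⊔ (triG ⊤ ⊓ DR R) := fun t => exists_R t.2
  choose S hSS using h1
  obtain ⟨S0, hS0⟩ : ∃ S0 : Finset K, S0 = T.biUnion S := ⟨_, rfl⟩
  obtain ⟨R, hR⟩ : ∃ R : Subring K, R = (Algebra.adjoin ℚ (S0 : Set K)).toSubring := ⟨_, rfl⟩
  have hSR : (S0 : Set K) ⊆ R := by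
    rw [hR]
    exact Algebra.subset_adjoin
  have hHR : ∀ h ∈ H, (h : Au K) ∈ (affG ⊤ ⊓ DR R) ⊔ (triG ⊤ ⊓ DR R) := by
    intro h hh
    rw [← hT] at hh
    induction hh using Subgroup.closure_induction with
    | mem x hx =>
      refine hSS x R (subset_trans ?_ hSR)
      rw [hS0]
      exact Finset.coe_subset.2 (Finset.subset_biUnion_of_mem S hx)
    | one => exact one_mem _
    | mul x y _ _ hx hy => exact mul_mem hx hy
    | inv x _ hx => exact inv_mem hx
  have hGG : C (GG (affG ⊤ ⊓ DR R) (triG ⊤ ⊓ DR R)) := by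
    refine pair_closed hC hAc (pair_R (DR R))
      {z : K | z ∈ Algebra.adjoin ℚ (S0 : Set K) ∧ ∃ n : ℕ, 0 < n ∧ z ^ n = 1} (fin_mu S0) ?_ ?_ ?_
    · rintro t ⟨_, ht⟩ n hn htn
      refine ⟨?_, n, hn, htn⟩
      have := (mem_SR.1 (ht.1 1)) (Finsupp.single 1 1)
      rw [hR] at this
      exact this
    · exact C_le hC.base inf_le_left hA
    · refine hS _ ?_
      have := tri_solvable (K := K)
      exact Group.isSolvable_of_isSolvable_injective
        (f := Subgroup.inclusion (inf_le_left : triG ⊤ ⊓ DR R ≤ triG ⊤))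
        (Subgroup.inclusion_injective _)
  let f : H →* GG (affG ⊤ ⊓ DR R) (triG ⊤ ⊓ DR R) :=
    { toFun := fun h => ⟨((h : Tame K) : Au K), hHR h h.2⟩
      map_one' := rfl
      map_mul' := fun _ _ => rfl }
  refine hC.base.of_injective _ _ f ?_ hGG
  intro x y hxy
  have := congrArg Subtype.val hxy
  exact Subtype.ext (Subtype.ext this)

end Pool.Agent.U293.PA
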