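import Pool.Agent.U293.PA.Deg

/-!
# The tree of the group generated by affine and triangular automorphisms
-/

set_option autoImplicit false

namespace Pool.Agent.U293.PA

open MvPolynomial

/-- a graph with levels such that each vertex except one has exactly one lower neighbour, and
neighbours have different levels, is a tree -/
theorem isTree_of_level {V : Type} (T : SimpleGraph V) (l : V → ℕ) (r : V)
    (h1 : ∀ u v, T.Adj u v → l u ≠ l v)
    (h2 : ∀ v, v ≠ r → ∃ u, T.Adj v u ∧ l u < l v)
    (h3 : ∀ v u u', T.Adj v u → T.Adj v u' → l u < l v → l u' < l v → u = u') : T.IsTree := by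
  classical
  refine ⟨?_, ?_⟩
  · have hr : ∀ n v, l v = n → T.Reachable v r := by
      intro n
      induction n using Nat.strong_induction_on with
      | _ n ih =>
        intro v hv
        by_cases hvr : v = r
        · rw [hvr]
        · obtain ⟨u, hu, hlt⟩ := h2 v hvr
          exact hu.reachable.trans (ih _ (by omega) u rfl)
    exact { preconnected := fun u v => (hr _ u rfl).trans (hr _ v rfl).symm, nonempty := ⟨r⟩ }
  · intro v c hc
    obtain ⟨w, hw, hmax⟩ := c.support.toFinset.exists_max_image l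
      ⟨v, by simp⟩
    have hw' : w ∈ c.support := by simpa using hw
    have hc' := hc.rotate hw'
    obtain ⟨c', hcc⟩ : ∃ c' : T.Walk w w, c' = c.rotate w hw' := ⟨_, rfl⟩
    rw [← hcc] at hc'
    have hsub : ∀ x ∈ c'.support, l x ≤ l w := by
      intro x hx
      apply hmax
      rw [List.mem_toFinset]
      rw [hcc] at hx
      exact (SimpleGraph.Walk.mem_support_rotate_iff ..).1 hx
    have hn : ¬ c'.Nil := hc'.not_nil
    have a1 := c'.adj_snd hn
    have a2 := c'.adj_penultimate hn
    have l1 : l c'.snd < l w :=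
      lt_of_le_of_ne (hsub _ (c'.getVert_mem_support _)) (h1 _ _ a1).symm
    have l2 : l c'.penultimate < l w :=
      lt_of_le_of_ne (hsub _ (c'.getVert_mem_support _)) (h1 _ _ a2)
    exact hc'.snd_ne_penultimate (h3 _ _ _ a1 a2.symm l1 l2)

variable {K : Type} [Field K]

/-- the elements which are reduced to the affine group -/
inductive Red (A B : Subgroup (Au K)) : Bool → Au K → Prop
  | base (g : Au K) : g ∈ A → Red A B false g
  | stA (g a : Au K) : a ∈ A → dg ((g * a) (X 1)) < mx g → Red A B true (g * a) → Red A B false g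
  | stB (g b : Au K) : b ∈ B → dg ((g * b) (X 0)) ≤ dg (g (X 1)) → Red A B false (g * b) →
      Red A B true g

variable {A B : Subgroup (Au K)}

theorem redA (h : Pair A B) {g a : Au K} (hg : Red A B false g) (ha : a ∈ A) :
    Red A B false (g * a) := by
  cases hg with
  | base _ hg => exact Red.base _ (mul_mem hg ha)
  | stA _ a0 ha0 hlt hr =>
    have e : g * a * (a⁻¹ * a0) = g * a0 := by group
    refine Red.stA _ (a⁻¹ * a0) (mul_mem (inv_mem ha) ha0) ?_ ?_
    · rw [e, mx_mul g (h.hA ha)]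
      exact hlt
    · rw [e]
      exact hr

theorem redB (h : Pair A B) {g b : Au K} (hg : Red A B true g) (hb : b ∈ B) :
    Red A B true (g * b) := by
  cases hg with
  | stB _ b0 hb0 hle hr =>
    have e : g * b * (b⁻¹ * b0) = g * b0 := by group
    refine Red.stB _ (b⁻¹ * b0) (mul_mem (inv_mem hb) hb0) ?_ ?_
    · rw [e, dg_tri g (h.hB hb)]
      exact hle
    · rw [e]
      exact hr

theorem aff_dg_le {g : Au K} (hg : g ∈ affG (⊤ : Subfield K)) (i : Fin 2) :
    dg (g (X i)) ≤ 1 := by
  have h0 : mx (1 * g) ≤ mx (1 : Au K) := mx_mul_le 1 hg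
  have h1 : mx (1 : Au K) ≤ 1 := by
    refine max_le ?_ ?_
    · change dg (X 0 : Rg K) ≤ 1
      rw [dg, totalDegree_X]
    · change dg (X 1 : Rg K) ≤ 1
      rw [dg, totalDegree_X]
  rw [one_mul] at h0
  have h2 := h0.trans h1
  fin_cases i
  · exact (le_max_left _ _).trans h2
  · exact (le_max_right _ _).trans h2

theorem redFT (h : Pair A B) {g : Au K} (hg : Red A B false g) : Red A B true g := by
  have hg0 := hg
  cases hg with
  | base _ hg =>
    refine Red.stB _ 1 (one_mem _) ?_ (by rwa [mul_one])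
    rw [mul_one]
    exact (aff_dg_le (h.hA hg) 0).trans (dg_X_pos g 1)
  | stA _ a0 ha0 hlt hr =>
    by_cases hb : a0 ∈ triG (⊤ : Subfield K)
    · have := redB h hr (inv_mem (h.hAB a0 ha0 hb))
      rwa [mul_inv_cancel_right] at this
    · have h1 : ¬ dg (g (X 1)) < mx g := by
        intro hlt1
        have h2 := low_unique g (a := 1) (a' := a0) (one_mem _) (h.hA ha0)
          (by rwa [mul_one]) hlt
        rw [inv_one, one_mul] at h2
        exact hb h2
      refine Red.stB _ 1 (one_mem _) ?_ (by rwa [mul_one])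
      rw [mul_one]
      exact (le_max_left _ _).trans (not_lt.1 h1)

theorem redTF (h : Pair A B) {g : Au K} (hg : Red A B true g) : Red A B false g := by
  have hg0 := hg
  cases hg with
  | stB _ b0 hb0 hle hr =>
    by_cases ha : b0 ∈ affG (⊤ : Subfield K)
    · have := redA h hr (inv_mem (h.hBA b0 hb0 ha))
      rwa [mul_inv_cancel_right] at this
    · have h1 : dg ((g * b0) (X 0)) ≤ dg ((g * b0) (X 1)) := by
        rw [dg_tri g (h.hB hb0)]
        exact hle
      have h2 := dg_big (g * b0) (inv_mem (h.hB hb0)) (fun hh => ha (by simpa using inv_mem hh)) h1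
      rw [mul_inv_cancel_right, dg_tri g (h.hB hb0)] at h2
      refine Red.stA _ 1 (one_mem _) ?_ (by rwa [mul_one])
      rw [mul_one]
      exact lt_of_lt_of_le h2 (le_max_left _ _)

theorem red_all (h : Pair A B) {g : Au K} (hg : g ∈ A ⊔ B) : Red A B false g := by
  let S : Subgroup (Au K) :=
    { carrier := {x | ∀ y, Red A B false y ↔ Red A B false (y * x)}
      one_mem' := fun y => by rw [mul_one]
      mul_mem' := fun {a b} ha hb y => by
        rw [ha y, hb (y * a), mul_assoc]
      inv_mem' := fun {a} ha y => by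
        rw [ha (y * a⁻¹), inv_mul_cancel_right] }
  have hA : A ≤ S := by
    intro a ha y
    refine ⟨fun hy => redA h hy ha, fun hy => ?_⟩
    have := redA h hy (inv_mem ha)
    rwa [mul_inv_cancel_right] at this
  have hB : B ≤ S := by
    intro b hb y
    refine ⟨fun hy => redTF h (redB h (redFT h hy) hb), fun hy => ?_⟩
    have := redTF h (redB h (redFT h hy) (inv_mem hb))
    rwa [mul_inv_cancel_right] at this
  have h1 : g ∈ S := (sup_le hA hB) hg
  have h2 := (h1 1).1 (Red.base 1 (one_mem _))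
  rwa [one_mul] at h2

/-- the group generated by `A` and `B` -/
abbrev GG (A B : Subgroup (Au K)) : Type := ↥(A ⊔ B)

/-- the vertices of the tree: the cosets of `A` and of `B` -/
abbrev Vt (A B : Subgroup (Au K)) : Type :=
  (GG A B ⧸ A.subgroupOf (A ⊔ B)) ⊕ (GG A B ⧸ B.subgroupOf (A ⊔ B))

/-- the vertex `g A` -/
noncomputable def vA (A B : Subgroup (Au K)) (g : GG A B) : Vt A B := Sum.inl (QuotientGroup.mk g)

/-- the vertex `g B` -/
noncomputable def vB (A B : Subgroup (Au K)) (g : GG A B) : Vt A B := Sum.inr (QuotientGroup.mk g)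

/-- the edges join `g A` and `g B` -/
def tr (A B : Subgroup (Au K)) : SimpleGraph (Vt A B) where
  Adj u v := ∃ g : GG A B, (u = vA A B g ∧ v = vB A B g) ∨ (u = vB A B g ∧ v = vA A B g)
  symm := ⟨by
    rintro u v ⟨g, h | h⟩
    · exact ⟨g, Or.inr ⟨h.2, h.1⟩⟩
    · exact ⟨g, Or.inl ⟨h.2, h.1⟩⟩⟩
  loopless := ⟨by
    rintro u ⟨g, h | h⟩
    · have := h.1.symm.trans h.2
      simp [vA, vB] at this
    · have := h.1.symm.trans h.2
      simp [vA, vB] at this⟩

theorem vA_eq {g h : GG A B} : vA A B g = vA A B h ↔ (g : Au K)⁻¹ * h ∈ A := by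
  unfold vA
  rw [Sum.inl.injEq, QuotientGroup.eq, Subgroup.mem_subgroupOf]
  rfl

theorem vB_eq {g h : GG A B} : vB A B g = vB A B h ↔ (g : Au K)⁻¹ * h ∈ B := by
  unfold vB
  rw [Sum.inr.injEq, QuotientGroup.eq, Subgroup.mem_subgroupOf]
  rfl

theorem vA_ne_vB {g h : GG A B} : vA A B g ≠ vB A B h := by simp [vA, vB]

/-- every neighbour of `g A` is `g a B` -/
theorem adjA {g : GG A B} {w : Vt A B} (h : (tr A B).Adj (vA A B g) w) :
    ∃ a : GG A B, (a : Au K) ∈ A ∧ w = vB A B (g * a) := by
  obtain ⟨x, h | h⟩ := h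
  · refine ⟨g⁻¹ * x, ?_, ?_⟩
    · exact vA_eq.1 h.1
    · rw [mul_inv_cancel_left]
      exact h.2
  · exact absurd h.1 vA_ne_vB

/-- every neighbour of `g B` is `g b A` -/
theorem adjB {g : GG A B} {w : Vt A B} (h : (tr A B).Adj (vB A B g) w) :
    ∃ b : GG A B, (b : Au K) ∈ B ∧ w = vA A B (g * b) := by
  obtain ⟨x, h | h⟩ := h
  · exact absurd h.1.symm vA_ne_vB
  · refine ⟨g⁻¹ * x, ?_, ?_⟩
    · exact vB_eq.1 h.1
    · rw [mul_inv_cancel_left]
      exact h.2

/-- the level of a vertex -/
noncomputable def lev (A B : Subgroup (Au K)) : Vt A B → ℕ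
  | Sum.inl q => 2 * mx (q.out : Au K)
  | Sum.inr q => 2 * dg ((q.out : Au K) (X 1)) + 1

theorem lev_A (h : Pair A B) (g : GG A B) : lev A B (vA A B g) = 2 * mx (g : Au K) := by
  have h1 : (g : Au K)⁻¹ * ((QuotientGroup.mk g : GG A B ⧸ A.subgroupOf (A ⊔ B)).out : Au K) ∈ A := by
    have : (QuotientGroup.mk g : GG A B ⧸ A.subgroupOf (A ⊔ B)) = QuotientGroup.mk
        ((QuotientGroup.mk g : GG A B ⧸ A.subgroupOf (A ⊔ B)).out) := (Quotient.out_eq' _).symm
    rw [QuotientGroup.eq, Subgroup.mem_subgroupOf] at this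
    exact this
  have h2 := mx_mul (g : Au K) (h.hA h1)
  rw [mul_inv_cancel_left] at h2
  unfold vA lev
  simp only
  rw [h2]

theorem lev_B (h : Pair A B) (g : GG A B) :
    lev A B (vB A B g) = 2 * dg ((g : Au K) (X 1)) + 1 := by
  have h1 : (g : Au K)⁻¹ * ((QuotientGroup.mk g : GG A B ⧸ B.subgroupOf (A ⊔ B)).out : Au K) ∈ B := by
    have : (QuotientGroup.mk g : GG A B ⧸ B.subgroupOf (A ⊔ B)) = QuotientGroup.mk
        ((QuotientGroup.mk g : GG A B ⧸ B.subgroupOf (A ⊔ B)).out) := (Quotient.out_eq' _).symm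
    rw [QuotientGroup.eq, Subgroup.mem_subgroupOf] at this
    exact this
  have h2 := dg_tri (g : Au K) (h.hB h1)
  rw [mul_inv_cancel_left] at h2
  unfold vB lev
  simp only
  rw [h2]

theorem cases_v (u : Vt A B) : (∃ g, u = vA A B g) ∨ ∃ g, u = vB A B g := by
  rcases u with q | q
  · left
    obtain ⟨g, rfl⟩ := QuotientGroup.mk_surjective q
    exact ⟨g, rfl⟩
  · right
    obtain ⟨g, rfl⟩ := QuotientGroup.mk_surjective q
    exact ⟨g, rfl⟩

theorem tr_tree (h : Pair A B) : (tr A B).IsTree := by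
  refine isTree_of_level _ (lev A B) (vA A B 1) ?_ ?_ ?_
  · rintro u v ⟨g, ⟨rfl, rfl⟩ | ⟨rfl, rfl⟩⟩
    · rw [lev_A h, lev_B h]
      omega
    · rw [lev_A h, lev_B h]
      omega
  · intro v hv
    rcases cases_v v with ⟨g, rfl⟩ | ⟨g, rfl⟩
    · have hr := red_all h g.2
      cases hr with
      | base _ hg =>
        exfalso
        apply hv
        rw [vA_eq]
        have := inv_mem hg
        simpa using this
      | stA _ a ha hlt _ =>
        have ha' : a ∈ A ⊔ B := Subgroup.mem_sup_left ha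
        refine ⟨vB A B (g * ⟨a, ha'⟩), ⟨g * ⟨a, ha'⟩, Or.inl ⟨?_, rfl⟩⟩, ?_⟩
        · rw [vA_eq]
          simpa using ha
        · rw [lev_A h, lev_B h]
          change 2 * dg (((g : Au K) * a) (X 1)) + 1 < _
          omega
    · have hr := redFT h (red_all h g.2)
      cases hr with
      | stB _ b hb hle _ =>
        have hb' : b ∈ A ⊔ B := Subgroup.mem_sup_right hb
        refine ⟨vA A B (g * ⟨b, hb'⟩), ⟨g * ⟨b, hb'⟩, Or.inr ⟨?_, rfl⟩⟩, ?_⟩
        · rw [vB_eq]
          simpa using hb
        · rw [lev_A h, lev_B h]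
          have : mx ((g : Au K) * b) ≤ dg ((g : Au K) (X 1)) := by
            refine max_le hle ?_
            rw [dg_tri _ (h.hB hb)]
          change 2 * mx ((g : Au K) * b) < _
          omega
  · intro v u u' hu hu' hl hl'
    rcases cases_v v with ⟨g, rfl⟩ | ⟨g, rfl⟩
    · obtain ⟨a, ha, rfl⟩ := adjA hu
      obtain ⟨a', ha', rfl⟩ := adjA hu'
      rw [lev_A h, lev_B h] at hl hl'
      have h1 : dg (((g : Au K) * a) (X 1)) < mx (g : Au K) := by
        change 2 * dg (((g : Au K) * a) (X 1)) + 1 < _ at hl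
        omega
      have h2 : dg (((g : Au K) * a') (X 1)) < mx (g : Au K) := by
        change 2 * dg (((g : Au K) * a') (X 1)) + 1 < _ at hl'
        omega
      have h3 := low_unique (g : Au K) (h.hA ha) (h.hA ha') h1 h2
      have h4 := h.hAB _ (mul_mem (inv_mem ha) ha') h3
      rw [vB_eq]
      have e : ((g * a : GG A B) : Au K)⁻¹ * ((g * a' : GG A B) : Au K) =
          (a : Au K)⁻¹ * (a' : Au K) := by
        rw [Subgroup.coe_mul, Subgroup.coe_mul]
        group
      rw [e]
      exact h4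
    · obtain ⟨b, hb, rfl⟩ := adjB hu
      obtain ⟨b', hb', rfl⟩ := adjB hu'
      rw [lev_A h, lev_B h] at hl hl'
      have h1 : mx ((g : Au K) * (b : Au K)) ≤ dg ((g : Au K) (X 1)) := by
        change 2 * mx ((g : Au K) * (b : Au K)) < _ at hl
        omega
      have h2 : mx ((g : Au K) * (b' : Au K)) ≤ dg ((g : Au K) (X 1)) := by
        change 2 * mx ((g : Au K) * (b' : Au K)) < _ at hl'
        omega
      rw [vA_eq]
      have e : ((g * b : GG A B) : Au K)⁻¹ * ((g * b' : GG A B) : Au K) =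
          (b : Au K)⁻¹ * (b' : Au K) := by
        rw [Subgroup.coe_mul, Subgroup.coe_mul]
        group
      rw [e]
      have hbb : (b : Au K)⁻¹ * (b' : Au K) ∈ B := mul_mem (inv_mem hb) hb'
      apply h.hBA _ hbb
      by_contra hna
      have h3 := dg_big ((g : Au K) * (b : Au K)) (h.hB hbb) hna ?_
      · have e2 : (g : Au K) * (b : Au K) * ((b : Au K)⁻¹ * (b' : Au K)) = (g : Au K) * (b' : Au K) := by
          group
        rw [e2, dg_tri _ (h.hB hb)] at h3
        exact absurd ((le_max_left _ _).trans h2) (not_le.2 h3)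
      · rw [dg_tri _ (h.hB hb)]
        exact (le_max_left _ _).trans h1

end Pool.Agent.U293.PA
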