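import Pool.Agent.U293.PA.Core
import Pool.Agent.U293.PA.Tree

/-!
# The action on the tree is acylindrical, with finite bounded stabilizers of long paths
-/

set_option autoImplicit false

namespace Pool.Agent.U293.PA

open MvPolynomial

variable {K : Type} [Field K]

/-- triangular and affine -/
def TA (t : Au K) : Prop := t ∈ affG (⊤ : Subfield K) ∧ t ∈ triG (⊤ : Subfield K)

theorem core [CharZero K] {t0 t s s1 s2 s3 a1 b1 a2 b2 a3 : Au K}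
    (ht0 : TA t0) (ht : TA t) (hs : TA s) (hs1 : TA s1) (hs2 : TA s2) (hs3 : TA s3)
    (ha1 : a1 ∈ affG (⊤ : Subfield K)) (ha1' : a1 ∉ triG (⊤ : Subfield K))
    (hb1 : b1 ∈ triG (⊤ : Subfield K)) (hb1' : b1 ∉ affG (⊤ : Subfield K))
    (ha2 : a2 ∈ affG (⊤ : Subfield K)) (ha2' : a2 ∉ triG (⊤ : Subfield K))
    (hb2 : b2 ∈ triG (⊤ : Subfield K)) (hb2' : b2 ∉ affG (⊤ : Subfield K))
    (ha3 : a3 ∈ affG (⊤ : Subfield K)) (ha3' : a3 ∉ triG (⊤ : Subfield K))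
    (e1 : a1 * t = t0 * a1) (e2 : b1 * s = t * b1) (e3 : a2 * s1 = s * a2) (e4 : b2 * s2 = s1 * b2)
    (e5 : a3 * s3 = s2 * a3) :
    (∃ n : ℕ, 0 < n ∧ bet t ^ n = 1) ∧ (bet t = 1 → t = 1) := by
  obtain ⟨α0, γ0, δ0, β0, ε0, p0⟩ := par_of ht0.1 ht0.2
  obtain ⟨α, γ, δ, β, ε, p⟩ := par_of ht.1 ht.2
  obtain ⟨α', γ', δ', β', ε', p'⟩ := par_of hs.1 hs.2
  obtain ⟨α1, γ1, δ1, β1, ε1, p1⟩ := par_of hs1.1 hs1.2
  obtain ⟨α2, γ2, δ2, β2, ε2, p2⟩ := par_of hs2.1 hs2.2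
  obtain ⟨α3, γ3, δ3, β3, ε3, p3⟩ := par_of hs3.1 hs3.2
  have inv_rel : ∀ {a x y : Au K}, a * x = y * a → a⁻¹ * y = x * a⁻¹ := by
    intro a x y h
    rw [eq_mul_inv_iff_mul_eq, mul_assoc, ← h, inv_mul_cancel_left]
  obtain ⟨c, d, f, hc, -, q1, -⟩ := stepA (inv_mem ha1) (fun h => ha1' (by simpa using inv_mem h))
    p p0 (inv_rel e1)
  obtain ⟨hα', hβ', ⟨n, hn, hαn⟩, hk, hk'⟩ := stepB hb1 hb1' p p' e2
  obtain ⟨c2, d2, f2, hc2, q2, q3, q4⟩ := stepA ha2 ha2' p' p1 e3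
  obtain ⟨c3, d3, f3, hc3, q5, q6, -⟩ := stepA (inv_mem ha2) (fun h => ha2' (by simpa using inv_mem h))
    p1 p' (inv_rel e3)
  obtain ⟨hα2, hβ2, ⟨m, hm, hαm⟩, hl, hl'⟩ := stepB hb2 hb2' p1 p2 e4
  obtain ⟨c4, d4, f4, hc4, -, q7, -⟩ := stepA ha3 ha3' p2 p3 e5
  rw [bet_par p]
  have hβ0 : β ≠ 0 := (par_ne p).2
  have hpow : β = β ^ (n * m) := by
    rw [pow_mul, ← hαn, ← hα', ← q2, ← hαm, ← q5, hβ']
  constructor
  · refine ⟨n * m - 1, ?_, ?_⟩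
    · have : 4 ≤ n * m := Nat.mul_le_mul hn hm
      omega
    · have h1 : β ^ (n * m - 1) * β = 1 * β := by
        rw [← pow_succ, one_mul]
        have : n * m - 1 + 1 = n * m := by
          have : 4 ≤ n * m := Nat.mul_le_mul hn hm
          omega
        rw [this, ← hpow]
      exact mul_right_cancel₀ hβ0 h1
  · intro hβ
    subst hβ
    rw [one_pow] at hαn
    rw [hαn] at hα' q1 p
    rw [hα'] at q2 q3 q4 p'
    rw [hβ'] at q3 q5 p'
    rw [q2] at q6 hl hl' hβ2 p1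
    rw [← q5] at hα2 p1 q6
    rw [hα2, hβ2] at q7
    simp only [sub_self, mul_zero] at q1 q3 q6 q7
    have g1 : γ = 0 := (mul_eq_zero.1 q1).resolve_left hc
    have g2 : γ' = 0 := (mul_eq_zero.1 q3).resolve_left hc2
    have g3 : γ1 = 0 := (mul_eq_zero.1 q6).resolve_left hc3
    have g4 : γ2 = 0 := (mul_eq_zero.1 q7).resolve_left hc4
    have z1 : ε = 0 := hk inferInstance rfl g1 g2
    have z2 : ε' = 0 := hk' rfl z1
    have z3 : ε1 = 0 := hl inferInstance rfl g3 g4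
    rw [z2, z3] at q4
    simp only [mul_zero, add_zero, sub_self, zero_mul] at q4
    have z4 : δ' = 0 := (mul_eq_zero.1 q4.symm).resolve_left hc2
    rw [g2, z2, z4] at p'
    have hs : s = 1 := par_one p'
    rw [hs, mul_one] at e2
    exact (mul_eq_right.1 e2.symm)

variable {A B : Subgroup (Au K)}

theorem smul_vA (g x : GG A B) : g • vA A B x = vA A B (g * x) := rfl

theorem smul_vB (g x : GG A B) : g • vB A B x = vB A B (g * x) := rfl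

theorem tr_act (g : GG A B) (u v : Vt A B) (h : (tr A B).Adj u v) :
    (tr A B).Adj (g • u) (g • v) := by
  obtain ⟨x, ⟨rfl, rfl⟩ | ⟨rfl, rfl⟩⟩ := h
  · exact ⟨g * x, Or.inl ⟨rfl, rfl⟩⟩
  · exact ⟨g * x, Or.inr ⟨rfl, rfl⟩⟩

theorem tr_inv (g : GG A B) (u v : Vt A B) (h : (tr A B).Adj u v) :
    ¬ (g • u = v ∧ g • v = u) := by
  obtain ⟨x, ⟨rfl, rfl⟩ | ⟨rfl, rfl⟩⟩ := h
  · rintro ⟨h1, -⟩
    exact vA_ne_vB h1
  · rintro ⟨h1, -⟩
    exact vA_ne_vB h1.symm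

theorem fixA {g x : GG A B} (h : g • vA A B x = vA A B x) :
    (x : Au K)⁻¹ * (g : Au K) * (x : Au K) ∈ A := by
  rw [smul_vA] at h
  have := vA_eq.1 h.symm
  rwa [Subgroup.coe_mul, ← mul_assoc] at this

theorem fixB {g x : GG A B} (h : g • vB A B x = vB A B x) :
    (x : Au K)⁻¹ * (g : Au K) * (x : Au K) ∈ B := by
  rw [smul_vB] at h
  have := vB_eq.1 h.symm
  rwa [Subgroup.coe_mul, ← mul_assoc] at this

/-- the next vertex after `g B, g A` -/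
theorem nextA {g : GG A B} {w : Vt A B} (h : (tr A B).Adj (vA A B g) w) (hw : w ≠ vB A B g) :
    ∃ a : GG A B, (a : Au K) ∈ A ∧ (a : Au K) ∉ B ∧ w = vB A B (g * a) ∧
      vA A B g = vA A B (g * a) := by
  obtain ⟨a, ha, rfl⟩ := adjA h
  refine ⟨a, ha, ?_, rfl, ?_⟩
  · intro hb
    apply hw
    rw [vB_eq]
    have := inv_mem hb
    simpa using this
  · rw [vA_eq]
    simpa using ha

/-- the next vertex after `g A, g B` -/
theorem nextB {g : GG A B} {w : Vt A B} (h : (tr A B).Adj (vB A B g) w) (hw : w ≠ vA A B g) :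
    ∃ b : GG A B, (b : Au K) ∈ B ∧ (b : Au K) ∉ A ∧ w = vA A B (g * b) ∧
      vB A B g = vB A B (g * b) := by
  obtain ⟨b, hb, rfl⟩ := adjB h
  refine ⟨b, hb, ?_, rfl, ?_⟩
  · intro ha
    apply hw
    rw [vA_eq]
    have := inv_mem ha
    simpa using this
  · rw [vB_eq]
    simpa using hb

/-- the pointwise stabilizers of paths `v0, ..., v6` starting at a coset of `B` -/
theorem six [CharZero K] (h : Pair A B) (M : Set K) (hM : M.Finite)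
    (hMB : ∀ t ∈ B, ∀ n : ℕ, 0 < n → bet t ^ n = 1 → bet t ∈ M)
    (v : ℕ → Vt A B) (hv0 : ∃ g, v 0 = vB A B g)
    (hadj : ∀ i < 6, (tr A B).Adj (v i) (v (i + 1))) (hne : ∀ i < 5, v i ≠ v (i + 2))
    (F : Finset (GG A B)) (hF : ∀ g ∈ F, ∀ i ≤ 6, g • v i = v i) : F.card ≤ M.ncard := by
  obtain ⟨g0, h0⟩ := hv0
  -- the edges
  have ad0 := hadj 0 (by norm_num)
  rw [h0] at ad0
  obtain ⟨b0, hb0, h1⟩ := adjB ad0
  obtain ⟨x0, hx0⟩ : ∃ x0, x0 = g0 * b0 := ⟨_, rfl⟩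
  rw [← hx0] at h1
  have h0' : v 0 = vB A B x0 := by
    rw [h0, hx0, vB_eq]
    simpa using hb0
  simp only [zero_add] at h1
  have ad1 := hadj 1 (by norm_num)
  rw [h1] at ad1
  obtain ⟨a1, ha1, ha1', h2, k1⟩ := nextA ad1 (by rw [← h0']; exact (hne 0 (by norm_num)).symm)
  have ad2 := hadj 2 (by norm_num)
  simp only [Nat.reduceAdd] at h2 ad2
  rw [h2] at ad2
  obtain ⟨b1, hb1, hb1', h3, k2⟩ := nextB ad2 (by rw [← k1, ← h1]; exact (hne 1 (by norm_num)).symm)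
  have ad3 := hadj 3 (by norm_num)
  simp only [Nat.reduceAdd] at h3 ad3
  rw [h3] at ad3
  obtain ⟨a2, ha2, ha2', h4, k3⟩ := nextA ad3 (by rw [← k2, ← h2]; exact (hne 2 (by norm_num)).symm)
  have ad4 := hadj 4 (by norm_num)
  simp only [Nat.reduceAdd] at h4 ad4
  rw [h4] at ad4
  obtain ⟨b2, hb2, hb2', h5, k4⟩ := nextB ad4 (by rw [← k3, ← h3]; exact (hne 3 (by norm_num)).symm)
  have ad5 := hadj 5 (by norm_num)
  simp only [Nat.reduceAdd] at h5 ad5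
  rw [h5] at ad5
  obtain ⟨a3, ha3, ha3', h6, k5⟩ := nextA ad5 (by rw [← k4, ← h4]; exact (hne 4 (by norm_num)).symm)
  obtain ⟨x1, hx1⟩ : ∃ x1, x1 = x0 * a1 := ⟨_, rfl⟩
  obtain ⟨x2, hx2⟩ : ∃ x2, x2 = x1 * b1 := ⟨_, rfl⟩
  obtain ⟨x3, hx3⟩ : ∃ x3, x3 = x2 * a2 := ⟨_, rfl⟩
  obtain ⟨x4, hx4⟩ : ∃ x4, x4 = x3 * b2 := ⟨_, rfl⟩
  obtain ⟨x5, hx5⟩ : ∃ x5, x5 = x4 * a3 := ⟨_, rfl⟩
  rw [← hx1] at h2 k1
  rw [← hx1, ← hx2] at h3 k2
  rw [← hx1, ← hx2, ← hx3] at h4 k3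
  rw [← hx1, ← hx2, ← hx3, ← hx4] at h5 k4
  rw [← hx1, ← hx2, ← hx3, ← hx4, ← hx5] at h6 k5
  -- the stabilizer
  let S : Subgroup (GG A B) :=
    { carrier := {g | ∀ i ≤ 6, g • v i = v i}
      one_mem' := fun i _ => one_smul _ _
      mul_mem' := fun {a b} ha hb i hi => by rw [mul_smul, hb i hi, ha i hi]
      inv_mem' := fun {a} ha i hi => by rw [inv_smul_eq_iff, ha i hi] }
  have mem : ∀ g ∈ S, ∀ x : GG A B, (∃ i ≤ 6, v i = vA A B x) → (∃ i ≤ 6, v i = vB A B x) →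
      ((x : Au K)⁻¹ * (g : Au K) * (x : Au K) ∈ B) ∧ TA ((x : Au K)⁻¹ * (g : Au K) * (x : Au K)) := by
    rintro g hg x ⟨i, hi, e⟩ ⟨j, hj, e'⟩
    have u1 := hg i hi
    have u2 := hg j hj
    rw [e] at u1
    rw [e'] at u2
    have w1 := fixA u1
    have w2 := fixB u2
    exact ⟨w2, h.hA w1, h.hB w2⟩
  have cor : ∀ g ∈ S, (∃ n : ℕ, 0 < n ∧ bet ((x1 : Au K)⁻¹ * (g : Au K) * (x1 : Au K)) ^ n = 1) ∧
      (bet ((x1 : Au K)⁻¹ * (g : Au K) * (x1 : Au K)) = 1 → (x1 : Au K)⁻¹ * (g : Au K) * (x1 : Au K) = 1) := by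
    intro g hg
    refine core (mem g hg x0 ⟨1, by norm_num, h1⟩ ⟨0, by norm_num, h0'⟩).2
      (mem g hg x1 ⟨1, by norm_num, h1.trans k1⟩ ⟨2, by norm_num, h2⟩).2
      (mem g hg x2 ⟨3, by norm_num, h3⟩ ⟨2, by norm_num, h2.trans k2⟩).2
      (mem g hg x3 ⟨3, by norm_num, h3.trans k3⟩ ⟨4, by norm_num, h4⟩).2
      (mem g hg x4 ⟨5, by norm_num, h5⟩ ⟨4, by norm_num, h4.trans k4⟩).2
      (mem g hg x5 ⟨5, by norm_num, h5.trans k5⟩ ⟨6, by norm_num, h6⟩).2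
      (h.hA ha1) (fun hh => ha1' (h.hAB _ ha1 hh)) (h.hB hb1) (fun hh => hb1' (h.hBA _ hb1 hh))
      (h.hA ha2) (fun hh => ha2' (h.hAB _ ha2 hh)) (h.hB hb2) (fun hh => hb2' (h.hBA _ hb2 hh))
      (h.hA ha3) (fun hh => ha3' (h.hAB _ ha3 hh)) ?_ ?_ ?_ ?_ ?_
    · rw [hx1, Subgroup.coe_mul]; group
    · rw [hx2, Subgroup.coe_mul]; group
    · rw [hx3, Subgroup.coe_mul]; group
    · rw [hx4, Subgroup.coe_mul]; group
    · rw [hx5, Subgroup.coe_mul]; group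
  have par : ∀ g ∈ S, ∃ α γ δ β ε : K, Par ((x1 : Au K)⁻¹ * (g : Au K) * (x1 : Au K)) α γ δ β ε := by
    intro g hg
    have := (mem g hg x1 ⟨1, by norm_num, h1.trans k1⟩ ⟨2, by norm_num, h2⟩).2
    exact par_of this.1 this.2
  rw [← Set.ncard_coe_finset F]
  refine Set.ncard_le_ncard_of_injOn (fun g : GG A B => bet ((x1 : Au K)⁻¹ * (g : Au K) * (x1 : Au K))) ?_ ?_ hM
  · intro g hg
    obtain ⟨n, hn, h7⟩ := (cor g (hF g hg)).1
    exact hMB _ (mem g (hF g hg) x1 ⟨1, by norm_num, h1.trans k1⟩ ⟨2, by norm_num, h2⟩).1 n hn h7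
  · intro g hg g' hg' hgg
    have s1 : g ∈ S := hF g hg
    have s2 : g' ∈ S := hF g' hg'
    have s3 : g⁻¹ * g' ∈ S := mul_mem (inv_mem s1) s2
    have hgg : bet ((x1 : Au K)⁻¹ * (g : Au K) * (x1 : Au K)) = bet ((x1 : Au K)⁻¹ * (g' : Au K) * (x1 : Au K)) := hgg
    obtain ⟨α, γ, δ, β, ε, p⟩ := par g s1
    obtain ⟨α', γ', δ', β', ε', p'⟩ := par _ s3
    have e : (x1 : Au K)⁻¹ * (g' : Au K) * (x1 : Au K) = ((x1 : Au K)⁻¹ * (g : Au K) * (x1 : Au K)) *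
        ((x1 : Au K)⁻¹ * ((g⁻¹ * g' : GG A B) : Au K) * (x1 : Au K)) := by
      rw [Subgroup.coe_mul, Subgroup.coe_inv]
      group
    rw [e, bet_mul p p', bet_par p] at hgg
    have hβ : β ≠ 0 := (par_ne p).2
    have hone : bet ((x1 : Au K)⁻¹ * ((g⁻¹ * g' : GG A B) : Au K) * (x1 : Au K)) = 1 := by
      have : β * bet ((x1 : Au K)⁻¹ * ((g⁻¹ * g' : GG A B) : Au K) * (x1 : Au K)) = β * 1 := by
        rw [mul_one]
        exact hgg.symm
      exact mul_left_cancel₀ hβ this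
    have h8 := (cor _ s3).2 hone
    have h9 : ((g⁻¹ * g' : GG A B) : Au K) = 1 := by
      have := congrArg (fun z : Au K => (x1 : Au K) * z * (x1 : Au K)⁻¹) h8
      simp only [mul_one, mul_inv_cancel] at this
      rw [← this]
      group
    have h10 : g⁻¹ * g' = 1 := Subtype.ext h9
    exact (inv_mul_eq_one.1 h10)

/-- the pointwise stabilizers of the paths of length at least seven -/
theorem acyl [CharZero K] (h : Pair A B) (M : Set K) (hM : M.Finite)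
    (hMB : ∀ t ∈ B, ∀ n : ℕ, 0 < n → bet t ^ n = 1 → bet t ∈ M)
    (u w : Vt A B) (p : (tr A B).Walk u w) (hp : p.IsPath) (hlen : 7 ≤ p.length)
    (F : Finset (GG A B)) (hF : ∀ g ∈ F, ∀ x ∈ p.support, g • x = x) : F.card ≤ M.ncard := by
  have hinj : ∀ i ≤ p.length, ∀ j ≤ p.length, p.getVert i = p.getVert j → i = j := by
    intro i hi j hj hij
    exact hp.getVert_injOn hi hj hij
  have hadj : ∀ i, i < p.length → (tr A B).Adj (p.getVert i) (p.getVert (i + 1)) :=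
    fun i hi => p.adj_getVert_succ hi
  rcases cases_v (p.getVert 0) with ⟨g, hg⟩ | ⟨g, hg⟩
  · have h1 := hadj 0 (by omega)
    rw [hg] at h1
    obtain ⟨a, ha, h2⟩ := adjA h1
    refine six h M hM hMB (fun i => p.getVert (i + 1)) ⟨_, h2⟩ (fun i hi => hadj _ (by omega))
      (fun i hi hh => ?_) F fun g hg i hi => hF g hg _ (p.getVert_mem_support _)
    have := hinj _ (by omega) _ (by omega) hh
    omega
  · refine six h M hM hMB (fun i => p.getVert i) ⟨g, hg⟩ (fun i hi => hadj _ (by omega))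
      (fun i hi hh => ?_) F fun g hg i hi => hF g hg _ (p.getVert_mem_support _)
    have := hinj _ (by omega) _ (by omega) hh
    omega

end Pool.Agent.U293.PA
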