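import Mathlib

/-!
# Affine and triangular automorphisms of `K[x, y]`
-/

set_option autoImplicit false

namespace Pool.Agent.U293.PA

open MvPolynomial

/-- the polynomial ring in two variables -/
abbrev Rg (K : Type) [Field K] : Type := MvPolynomial (Fin 2) K

/-- the group of the `K`-algebra automorphisms of `K[x, y]` -/
abbrev Au (K : Type) [Field K] : Type := Rg K ≃ₐ[K] Rg K

variable {K : Type} [Field K]

/-- `g` is affine, with coefficients in `k` -/
def AffOver (k : Subfield K) (g : Au K) : Prop :=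
  ∃ a b c d e f : k, g (X 0) = C (a : K) * X 0 + C (b : K) * X 1 + C (e : K) ∧
    g (X 1) = C (c : K) * X 0 + C (d : K) * X 1 + C (f : K)

/-- `g` is triangular, with coefficients in `k` -/
def TriOver (k : Subfield K) (g : Au K) : Prop :=
  ∃ (a b c : k) (p : Polynomial k),
    g (X 0) = C (a : K) * X 0 + Polynomial.aeval (X 1) (p.map k.subtype) ∧
    g (X 1) = C (b : K) * X 1 + C (c : K)

theorem ext_of {g h : Au K} (h0 : g (X 0) = h (X 0)) (h1 : g (X 1) = h (X 1)) : g = h := by
  apply AlgEquiv.coe_toAlgHom_injective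
  apply MvPolynomial.algHom_ext
  intro i
  fin_cases i
  · exact h0
  · exact h1

theorem gC (g : Au K) (a : K) : g (C a) = C a := by
  rw [← MvPolynomial.algebraMap_eq]
  exact g.commutes a

theorem inv_ap (g : Au K) (Q : Rg K) : (g⁻¹ : Au K) (g Q) = Q := g.symm_apply_apply Q

theorem ap_inv (g : Au K) (Q : Rg K) : g ((g⁻¹ : Au K) Q) = Q := g.apply_symm_apply Q

theorem g_aeval (g : Au K) (P : Rg K) (p : Polynomial K) :
    g (Polynomial.aeval P p) = Polynomial.aeval (g P) p :=
  (Polynomial.aeval_algHom_apply g P p).symm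

theorem aeval_lin (b c : K) (p : Polynomial K) :
    Polynomial.aeval (C b * X 1 + C c : Rg K) p =
      Polynomial.aeval (X 1 : Rg K) (p.comp (Polynomial.C b * Polynomial.X + Polynomial.C c)) := by
  rw [Polynomial.aeval_comp]
  congr 1
  simp [MvPolynomial.algebraMap_eq]

theorem lin_ext {a b e a' b' e' : K}
    (h : (C a * X 0 + C b * X 1 + C e : Rg K) = C a' * X 0 + C b' * X 1 + C e') :
    a = a' ∧ b = b' ∧ e = e' := by
  have h0 := congrArg (eval (fun _ => (0 : K))) h
  have h1 := congrArg (eval (fun i : Fin 2 => if i = 0 then (1 : K) else 0)) h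
  have h2 := congrArg (eval (fun i : Fin 2 => if i = 0 then (0 : K) else 1)) h
  simp at h0 h1 h2
  subst h0
  refine ⟨?_, ?_, rfl⟩
  · simpa using h1
  · simpa using h2

theorem det_ne {g : Au K} {a b c d e f : K} (h0 : g (X 0) = C a * X 0 + C b * X 1 + C e)
    (h1 : g (X 1) = C c * X 0 + C d * X 1 + C f) : a * d - b * c ≠ 0 := by
  intro hd
  have e1 : (C d * X 0 - C b * X 1 : Rg K) = C (d * e - b * f) := by
    apply g.injective
    rw [map_sub, map_mul, map_mul, gC, gC, gC, h0, h1]
    have : (C (a * d - b * c) : Rg K) = 0 := by rw [hd, C_0]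
    simp only [C_sub, C_mul] at this ⊢
    linear_combination (X 0 : Rg K) * this
  have e2 : (C c * X 0 - C a * X 1 : Rg K) = C (c * e - a * f) := by
    apply g.injective
    rw [map_sub, map_mul, map_mul, gC, gC, gC, h0, h1]
    have : (C (a * d - b * c) : Rg K) = 0 := by rw [hd, C_0]
    simp only [C_sub, C_mul] at this ⊢
    linear_combination (-(X 1 : Rg K)) * this
  have f1 := lin_ext (a := d) (b := -b) (e := 0) (a' := 0) (b' := 0) (e' := d * e - b * f)
    (by rw [← e1]; simp [C_neg]; ring)
  have f2 := lin_ext (a := c) (b := -a) (e := 0) (a' := 0) (b' := 0) (e' := c * e - a * f)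
    (by rw [← e2]; simp [C_neg]; ring)
  have ha : a = 0 := by simpa using f2.2.1
  have hb : b = 0 := by simpa using f1.2.1
  subst ha hb
  have e3 : (X 0 : Rg K) = C e := by
    apply g.injective
    rw [gC, h0]
    simp
  have f3 := lin_ext (a := 1) (b := 0) (e := 0) (a' := 0) (b' := 0) (e' := e)
    (by simpa using e3)
  exact one_ne_zero f3.1

/-- the affine automorphisms with coefficients in `k` -/
def affG (k : Subfield K) : Subgroup (Au K) where
  carrier := {g | AffOver k g}
  one_mem' := ⟨1, 0, 0, 1, 0, 0, by simp, by simp⟩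
  mul_mem' := by
    rintro g h ⟨a, b, c, d, e, f, h0, h1⟩ ⟨a', b', c', d', e', f', h0', h1'⟩
    refine ⟨a' * a + b' * c, a' * b + b' * d, c' * a + d' * c, c' * b + d' * d,
      a' * e + b' * f + e', c' * e + d' * f + f', ?_, ?_⟩
    · rw [AlgEquiv.mul_apply, h0', map_add, map_add, map_mul, map_mul, gC, gC, gC, h0, h1]
      push_cast
      simp only [C_add, C_mul]
      ring
    · rw [AlgEquiv.mul_apply, h1', map_add, map_add, map_mul, map_mul, gC, gC, gC, h0, h1]
      push_cast
      simp only [C_add, C_mul]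
      ring
  inv_mem' := by
    rintro g ⟨a, b, c, d, e, f, h0, h1⟩
    have hd := det_ne h0 h1
    obtain ⟨D, hD⟩ : ∃ D : K, D = (a : K) * d - b * c := ⟨_, rfl⟩
    rw [← hD] at hd
    have key : ∀ u v w : K, ∀ Q : Rg K, C u * g (X 0) + C v * g (X 1) + C w = Q →
        (g⁻¹ : Au K) Q = C u * X 0 + C v * X 1 + C w := by
      intro u v w Q hQ
      rw [← hQ, map_add, map_add, map_mul, map_mul, gC, gC, gC, inv_ap, inv_ap]
    refine ⟨d / (a * d - b * c), - b / (a * d - b * c), - c / (a * d - b * c),
      a / (a * d - b * c), (b * f - d * e) / (a * d - b * c), (c * e - a * f) / (a * d - b * c),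
      key _ _ _ _ ?_, key _ _ _ _ ?_⟩
    · push_cast
      rw [← hD, h0, h1]
      have e1 : ((d : K) / D * a + - (b : K) / D * c) = 1 := by
        field_simp
        rw [hD]; ring
      have e2 : ((d : K) / D * b + - (b : K) / D * d) = 0 := by
        field_simp
        ring
      have e3 : ((d : K) / D * e + - (b : K) / D * f + ((b : K) * f - d * e) / D) = 0 := by
        field_simp
        ring
      have e1' := congrArg (C : K → Rg K) e1
      have e2' := congrArg (C : K → Rg K) e2
      have e3' := congrArg (C : K → Rg K) e3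
      simp only [C_add, C_mul, C_1, C_0] at e1' e2' e3'
      linear_combination (X 0 : Rg K) * e1' + (X 1 : Rg K) * e2' + e3'
    · push_cast
      rw [← hD, h0, h1]
      have e1 : (- (c : K) / D * a + (a : K) / D * c) = 0 := by
        field_simp
        ring
      have e2 : (- (c : K) / D * b + (a : K) / D * d) = 1 := by
        field_simp
        rw [hD]; ring
      have e3 : (- (c : K) / D * e + (a : K) / D * f + ((c : K) * e - a * f) / D) = 0 := by
        field_simp
        ring
      have e1' := congrArg (C : K → Rg K) e1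
      have e2' := congrArg (C : K → Rg K) e2
      have e3' := congrArg (C : K → Rg K) e3
      simp only [C_add, C_mul, C_1, C_0] at e1' e2' e3'
      linear_combination (X 0 : Rg K) * e1' + (X 1 : Rg K) * e2' + e3'

theorem mem_affG {k : Subfield K} {g : Au K} : g ∈ affG k ↔ AffOver k g := Iff.rfl

theorem tri_ne {g : Au K} {a b c : K} {p : Polynomial K}
    (h0 : g (X 0) = C a * X 0 + Polynomial.aeval (X 1) p)
    (h1 : g (X 1) = C b * X 1 + C c) : a ≠ 0 ∧ b ≠ 0 := by
  have hb : b ≠ 0 := by
    rintro rfl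
    have e3 : (X 1 : Rg K) = C c := by
      apply g.injective
      rw [gC, h1]
      simp
    have f3 := lin_ext (a := 0) (b := 1) (e := 0) (a' := 0) (b' := 0) (e' := c)
      (by simpa using e3)
    exact one_ne_zero f3.2.1
  refine ⟨?_, hb⟩
  rintro rfl
  have e1 : (X 0 : Rg K) = Polynomial.aeval (C b⁻¹ * X 1 + C (-(b⁻¹ * c))) p := by
    apply g.injective
    have : (C b⁻¹ * C b : Rg K) = 1 := by rw [← C_mul, inv_mul_cancel₀ hb, C_1]
    have e2 : C b⁻¹ * (C b * X 1 + C c) + C (-(b⁻¹ * c)) = (X 1 : Rg K) := by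
      rw [C_neg, C_mul]
      linear_combination ((X 1 : Rg K)) * this
    rw [g_aeval, h0, map_add, map_mul, gC, gC, h1, e2, C_0, zero_mul, zero_add]
  have h2 := congrArg (eval (fun _ => (0 : K))) e1
  have h3 := congrArg (eval (fun i : Fin 2 => if i = 0 then (1 : K) else 0)) e1
  have e4 : ∀ v : Fin 2 → K, eval v (Polynomial.aeval (C b⁻¹ * X 1 + C (-(b⁻¹ * c))) p) =
      Polynomial.eval (b⁻¹ * v 1 + (-(b⁻¹ * c))) p := by
    intro v
    rw [← MvPolynomial.coe_aeval_eq_eval, ← Polynomial.coe_aeval_eq_eval]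
    change (aeval v) _ = _
    rw [← Polynomial.aeval_algHom_apply]
    congr 1
    simp
  rw [e4] at h2 h3
  simp at h2 h3
  rw [← h2] at h3
  exact one_ne_zero h3

/-- the triangular automorphisms with coefficients in `k` -/
def triG (k : Subfield K) : Subgroup (Au K) where
  carrier := {g | TriOver k g}
  one_mem' := ⟨1, 1, 0, 0, by simp, by simp⟩
  mul_mem' := by
    rintro g h ⟨a, b, c, p, h0, h1⟩ ⟨a', b', c', p', h0', h1'⟩
    refine ⟨a' * a, b' * b, b' * c + c',
      Polynomial.C a' * p + p'.comp (Polynomial.C b * Polynomial.X + Polynomial.C c), ?_, ?_⟩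
    · rw [AlgEquiv.mul_apply, h0', map_add, map_mul, gC, g_aeval, h0, h1, aeval_lin,
        Polynomial.map_add, Polynomial.map_mul, Polynomial.map_comp, Polynomial.map_add,
        Polynomial.map_mul, Polynomial.map_C, Polynomial.map_C, Polynomial.map_C, Polynomial.map_X,
        map_add, map_mul, Polynomial.aeval_C, MvPolynomial.algebraMap_eq]
      push_cast
      simp only [C_mul, Subfield.coe_subtype]
      ring
    · rw [AlgEquiv.mul_apply, h1', map_add, map_mul, gC, gC, h1]
      push_cast
      simp only [C_add, C_mul]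
      ring
  inv_mem' := by
    rintro g ⟨a, b, c, p, h0, h1⟩
    obtain ⟨ha, hb⟩ := tri_ne h0 h1
    have e1 : C (a : K)⁻¹ * C (a : K) = (1 : Rg K) := by rw [← C_mul, inv_mul_cancel₀ ha, C_1]
    have e2 : C (b : K)⁻¹ * C (b : K) = (1 : Rg K) := by rw [← C_mul, inv_mul_cancel₀ hb, C_1]
    have e3 : (g⁻¹ : Au K) (X 1) = C ((b : K)⁻¹) * X 1 + C (-((b : K)⁻¹ * c)) := by
      have := congrArg (g⁻¹ : Au K) h1
      rw [inv_ap, map_add, map_mul, gC, gC] at this
      rw [C_neg, C_mul]
      linear_combination (-((g⁻¹ : Au K) (X 1))) * e2 - C (b : K)⁻¹ * this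
    refine ⟨a⁻¹, b⁻¹, -(b⁻¹ * c), -(Polynomial.C a⁻¹ *
      p.comp (Polynomial.C b⁻¹ * Polynomial.X + Polynomial.C (-(b⁻¹ * c)))), ?_, ?_⟩
    · have := congrArg (g⁻¹ : Au K) h0
      rw [inv_ap, map_add, map_mul, gC, g_aeval, e3, aeval_lin] at this
      rw [Polynomial.map_neg, Polynomial.map_mul, Polynomial.map_comp, Polynomial.map_add,
        Polynomial.map_mul, Polynomial.map_C, Polynomial.map_C, Polynomial.map_C, Polynomial.map_X,
        map_neg, map_mul, Polynomial.aeval_C, MvPolynomial.algebraMap_eq]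
      push_cast
      simp only [Subfield.coe_subtype]
      push_cast
      linear_combination (-((g⁻¹ : Au K) (X 0))) * e1 - C (a : K)⁻¹ * this
    · rw [e3]
      push_cast
      rfl

theorem mem_triG {k : Subfield K} {g : Au K} : g ∈ triG k ↔ TriOver k g := Iff.rfl

end Pool.Agent.U293.PA
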