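import Pool.Agent.U293.PA.Acyl
import Pool.Agent.N509.TX.Fg

/-!
# Membership in the class
-/

set_option autoImplicit false

namespace Pool.Agent.U293.PA

open MvPolynomial
open Pool.Agent.Y110.FJ (ClosedE)
open Pool.Agent.N509.TX (AcylF of_fg C_stab)

variable {C : ∀ (G : Type) [Group G], Prop} {K : Type} [Field K] {A B : Subgroup (Au K)}

theorem stabA (hC : ClosedE C) (hA : C A) (g : GG A B) :
    C ↥(MulAction.stabilizer (GG A B) (vA A B g)) := by
  let f : ↥(MulAction.stabilizer (GG A B) (vA A B g)) →* A :=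
    { toFun := fun x => ⟨(g : Au K)⁻¹ * ((x : GG A B) : Au K) * (g : Au K), fixA x.2⟩
      map_one' := by
        apply Subtype.ext
        simp
      map_mul' := fun x y => by
        apply Subtype.ext
        simp only [Subgroup.coe_mul]
        group }
  refine hC.base.of_injective _ _ f ?_ hA
  intro x y hxy
  have h1 := congrArg Subtype.val hxy
  have h2 : (g : Au K)⁻¹ * ((x : GG A B) : Au K) * (g : Au K) =
      (g : Au K)⁻¹ * ((y : GG A B) : Au K) * (g : Au K) := h1
  have h3 := mul_left_cancel (mul_right_cancel h2)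
  exact Subtype.ext (Subtype.ext h3)

theorem stabB (hC : ClosedE C) (hB : C B) (g : GG A B) :
    C ↥(MulAction.stabilizer (GG A B) (vB A B g)) := by
  let f : ↥(MulAction.stabilizer (GG A B) (vB A B g)) →* B :=
    { toFun := fun x => ⟨(g : Au K)⁻¹ * ((x : GG A B) : Au K) * (g : Au K), fixB x.2⟩
      map_one' := by
        apply Subtype.ext
        simp
      map_mul' := fun x y => by
        apply Subtype.ext
        simp only [Subgroup.coe_mul]
        group }
  refine hC.base.of_injective _ _ f ?_ hB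
  intro x y hxy
  have h1 := congrArg Subtype.val hxy
  have h2 : (g : Au K)⁻¹ * ((x : GG A B) : Au K) * (g : Au K) =
      (g : Au K)⁻¹ * ((y : GG A B) : Au K) * (g : Au K) := h1
  have h3 := mul_left_cancel (mul_right_cancel h2)
  exact Subtype.ext (Subtype.ext h3)

theorem stabV (hC : ClosedE C) (hA : C A) (hB : C B) (v : Vt A B) :
    C ↥(MulAction.stabilizer (GG A B) v) := by
  rcases cases_v v with ⟨g, rfl⟩ | ⟨g, rfl⟩
  · exact stabA hC hA g
  · exact stabB hC hB g

theorem pair_closed [CharZero K] (hC : ClosedE C) (hAc : AcylF C) (h : Pair A B) (M : Set K)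
    (hM : M.Finite) (hMB : ∀ t ∈ B, ∀ n : ℕ, 0 < n → bet t ^ n = 1 → bet t ∈ M)
    (hA : C A) (hB : C B) : C (GG A B) := by
  classical
  refine of_fg hC fun H hH => ?_
  refine hAc H (Vt A B) (tr A B) hH (tr_tree h) (fun g u v huv => tr_act (g : GG A B) u v huv)
    (fun g u v huv => tr_inv (g : GG A B) u v huv) ⟨7, M.ncard, ?_⟩ fun v => ?_
  · intro u w p hp hlen F hF
    have h1 := acyl h M hM hMB u w p hp hlen (F.map ⟨Subtype.val, Subtype.val_injective⟩) (by
      intro g hg x hx
      rw [Finset.mem_map] at hg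
      obtain ⟨g', hg', rfl⟩ := hg
      exact hF g' hg' x hx)
    rwa [Finset.card_map] at h1
  · exact C_stab hC H v (stabV hC hA hB v)

/-- the case of finite edge groups -/
theorem pair_closed_fin (hC : ClosedE C) (hAc : AcylF C) (h : Pair A B)
    (hfin : ((A : Set (Au K)) ∩ B).Finite) (hA : C A) (hB : C B) : C (GG A B) := by
  classical
  refine of_fg hC fun H hH => ?_
  refine hAc H (Vt A B) (tr A B) hH (tr_tree h) (fun g u v huv => tr_act (g : GG A B) u v huv)
    (fun g u v huv => tr_inv (g : GG A B) u v huv) ⟨1, ((A : Set (Au K)) ∩ B).ncard, ?_⟩ fun v => ?_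
  · intro u w p hp hlen F hF
    have h1 : ∃ x : GG A B, vA A B x ∈ p.support ∧ vB A B x ∈ p.support := by
      have h2 := p.adj_getVert_succ (i := 0) (by omega)
      obtain ⟨x, ⟨e1, e2⟩ | ⟨e1, e2⟩⟩ := h2
      · refine ⟨x, ?_, ?_⟩
        · rw [← e1]; exact p.getVert_mem_support _
        · rw [← e2]; exact p.getVert_mem_support _
      · refine ⟨x, ?_, ?_⟩
        · rw [← e2]; exact p.getVert_mem_support _
        · rw [← e1]; exact p.getVert_mem_support _
    obtain ⟨x, hx1, hx2⟩ := h1
    rw [← Set.ncard_coe_finset F]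
    refine Set.ncard_le_ncard_of_injOn
      (fun g : H => (x : Au K)⁻¹ * ((g : GG A B) : Au K) * (x : Au K)) ?_ ?_ hfin
    · intro g hg
      exact ⟨fixA (hF g hg _ hx1), fixB (hF g hg _ hx2)⟩
    · intro g _ g' _ hgg
      have h3 := mul_left_cancel (mul_right_cancel hgg)
      exact Subtype.ext (Subtype.ext h3)
  · exact C_stab hC H v (stabV hC hA hB v)

end Pool.Agent.U293.PA
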