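import Pool.Agent.U293.PA.Deg

/-!
# Triangular affine automorphisms which stay affine along a path
-/

set_option autoImplicit false

namespace Pool.Agent.U293.PA

open MvPolynomial

variable {K : Type} [Field K]

/-- the parameters of a triangular affine automorphism -/
def Par (t : Au K) (α γ δ β ε : K) : Prop :=
  t (X 0) = C α * X 0 + C γ * X 1 + C δ ∧ t (X 1) = C β * X 1 + C ε

theorem par_of {t : Au K} (ha : t ∈ affG (⊤ : Subfield K)) (hb : t ∈ triG (⊤ : Subfield K)) :
    ∃ α γ δ β ε : K, Par t α γ δ β ε := by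
  obtain ⟨a, b, c, d, e, f, h0, h1⟩ := aff_top.1 ha
  obtain ⟨a', b', c', p', h0', h1'⟩ := tri_top.1 hb
  exact ⟨a, b, e, b', c', h0, h1'⟩

theorem par_ne {t : Au K} {α γ δ β ε : K} (h : Par t α γ δ β ε) : α ≠ 0 ∧ β ≠ 0 := by
  refine tri_ne (p := Polynomial.C γ * Polynomial.X + Polynomial.C δ) ?_ h.2
  rw [h.1]
  simp [MvPolynomial.algebraMap_eq]
  ring

theorem par_one {t : Au K} (h : Par t 1 0 0 1 0) : t = 1 := by
  apply ext_of
  · rw [h.1]
    simp
  · rw [h.2]
    simp

/-- the multiplier of the second variable -/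
noncomputable def bet (t : Au K) : K := (t (X 1)).coeff (Finsupp.single 1 1)

theorem bet_par {t : Au K} {α γ δ β ε : K} (h : Par t α γ δ β ε) : bet t = β := by
  have h0 : (0 : Fin 2 →₀ ℕ) ≠ Finsupp.single 1 1 := by
    intro h
    have := DFunLike.congr_fun h 1
    simp at this
  unfold bet
  rw [h.2, coeff_add, coeff_C_mul, coeff_C, coeff_X, if_neg h0]
  simp

theorem bet_mul {t s : Au K} {α γ δ β ε α' γ' δ' β' ε' : K} (ht : Par t α γ δ β ε)
    (hs : Par s α' γ' δ' β' ε') : bet (t * s) = bet t * bet s := by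
  have h : Par (t * s) (α' * α) (α' * γ + γ' * β) (α' * δ + γ' * ε + δ') (β' * β) (β' * ε + ε') := by
    constructor
    · rw [AlgEquiv.mul_apply, hs.1, map_add, map_add, map_mul, map_mul, gC, gC, gC, ht.1, ht.2]
      simp only [C_add, C_mul]
      ring
    · rw [AlgEquiv.mul_apply, hs.2, map_add, map_mul, gC, gC, ht.2]
      simp only [C_add, C_mul]
      ring
  rw [bet_par h, bet_par ht, bet_par hs]
  ring

theorem aff_row {a : Au K} (ha : a ∈ affG (⊤ : Subfield K)) (hb : a ∉ triG (⊤ : Subfield K)) :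
    ∃ c d f : K, c ≠ 0 ∧ a (X 1) = C c * X 0 + C d * X 1 + C f := by
  obtain ⟨u, v, c, d, e, f, h0, h1⟩ := aff_top.1 ha
  refine ⟨c, d, f, ?_, h1⟩
  rintro rfl
  apply hb
  refine tri_top.2 ⟨u, d, f, Polynomial.C v * Polynomial.X + Polynomial.C e, ?_, ?_⟩
  · rw [h0]
    simp [MvPolynomial.algebraMap_eq]
    ring
  · rw [h1]
    simp

/-- passing an affine automorphism -/
theorem stepA {a t t' : Au K} (ha : a ∈ affG (⊤ : Subfield K)) (hb : a ∉ triG (⊤ : Subfield K))
    {α γ δ β ε α' γ' δ' β' ε' : K} (ht : Par t α γ δ β ε) (ht' : Par t' α' γ' δ' β' ε')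
    (h : a * t' = t * a) :
    ∃ c d f : K, c ≠ 0 ∧ β' = α ∧ c * γ = d * (α - β) ∧ ε' = c * δ + d * ε + (1 - α) * f := by
  obtain ⟨c, d, f, hc, h1⟩ := aff_row ha hb
  have e1 := congrArg (fun g : Au K => g (X 1)) h
  simp only [AlgEquiv.mul_apply] at e1
  rw [ht'.2, h1, map_add, map_mul, gC, gC, h1, map_add, map_add, map_mul, map_mul, gC, gC, gC,
    ht.1, ht.2] at e1
  have e2 := lin_ext (a := β' * c) (b := β' * d) (e := β' * f + ε') (a' := c * α)
    (b' := c * γ + d * β) (e' := c * δ + d * ε + f) (by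
      simp only [C_add, C_mul]
      linear_combination e1)
  obtain ⟨f1, f2, f3⟩ := e2
  have hβ : β' = α := by
    have : β' * c = α * c := by rw [f1]; ring
    exact mul_right_cancel₀ hc this
  subst hβ
  refine ⟨c, d, f, hc, rfl, ?_, ?_⟩
  · linear_combination -f2
  · linear_combination f3

/-- passing a triangular automorphism -/
theorem stepB {b t s : Au K} (hb : b ∈ triG (⊤ : Subfield K)) (ha : b ∉ affG (⊤ : Subfield K))
    {α γ δ β ε α' γ' δ' β' ε' : K} (ht : Par t α γ δ β ε) (hs : Par s α' γ' δ' β' ε')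
    (h : b * s = t * b) :
    α' = α ∧ β' = β ∧ (∃ n : ℕ, 2 ≤ n ∧ α = β ^ n) ∧
      (CharZero K → β = 1 → γ = 0 → γ' = 0 → ε = 0) ∧ (β = 1 → ε = 0 → ε' = 0) := by
  obtain ⟨u, v, c, p, h0, h1⟩ := tri_top.1 hb
  obtain ⟨hu, hv⟩ := tri_ne h0 h1
  have e1 := congrArg (fun g : Au K => g (X 1)) h
  simp only [AlgEquiv.mul_apply] at e1
  rw [hs.2, h1, map_add, map_mul, gC, gC, h1, map_add, map_mul, gC, gC, ht.2] at e1
  obtain ⟨-, f2, f3⟩ := lin_ext (a := 0) (b := β' * v) (e := β' * c + ε') (a' := 0)
    (b' := v * β) (e' := v * ε + c) (by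
      simp only [C_add, C_mul, C_0]
      linear_combination e1)
  have hβ : β' = β := by
    have : β' * v = β * v := by rw [f2]; ring
    exact mul_right_cancel₀ hv this
  subst hβ
  have e2 := congrArg (fun g : Au K => g (X 0)) h
  simp only [AlgEquiv.mul_apply] at e2
  rw [hs.1, h0, map_add, map_add, map_mul, map_mul, gC, gC, gC, h0, h1, map_add, map_mul, gC,
    g_aeval, ht.1, ht.2] at e2
  -- compare the coefficients of `X 0`
  have ev : ∀ w : Fin 2 → K, α' * (u * w 0 + Polynomial.eval (w 1) p) + γ' * (v * w 1 + c) + δ' =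
      u * (α * w 0 + γ * w 1 + δ) + Polynomial.eval (β' * w 1 + ε) p := by
    intro w
    have e3 := congrArg (aeval w) e2
    simp only [map_add, map_mul, aeval_C, aeval_X, ← Polynomial.aeval_algHom_apply,
      Algebra.algebraMap_self, RingHom.id_apply, Polynomial.coe_aeval_eq_eval] at e3
    exact e3
  have hα : α' = α := by
    have g1 := ev (fun i => if i = 0 then 1 else 0)
    have g0 := ev (fun _ => 0)
    simp at g1 g0
    have : α' * u = α * u := by linear_combination g1 - g0
    exact mul_right_cancel₀ hu this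
  subst hα
  -- the polynomial identity
  have e4 : Polynomial.C α' * p + Polynomial.C (γ' * v) * Polynomial.X + Polynomial.C (γ' * c + δ') =
      Polynomial.C (u * γ) * Polynomial.X + Polynomial.C (u * δ) +
        p.comp (Polynomial.C β' * Polynomial.X + Polynomial.C ε) := by
    have e3 := congrArg (aeval (fun i : Fin 2 => if i = 0 then (0 : Polynomial K) else
        Polynomial.X)) e2
    simp only [map_add, map_mul, aeval_C, aeval_X, ← Polynomial.aeval_algHom_apply,
      Polynomial.algebraMap_eq] at e3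
    simp only [if_true, if_false, one_ne_zero, Polynomial.aeval_X_left_apply, mul_zero, zero_add] at e3
    rw [Polynomial.comp_eq_aeval]
    simp only [Polynomial.C_add, Polynomial.C_mul]
    linear_combination e3
  have hp : 2 ≤ p.natDegree := by
    by_contra hlt
    apply ha
    have hp : p = Polynomial.C (p.coeff 1) * Polynomial.X + Polynomial.C (p.coeff 0) :=
      Polynomial.eq_X_add_C_of_natDegree_le_one (by omega)
    refine aff_top.2 ⟨u, p.coeff 1, 0, v, p.coeff 0, c, ?_, ?_⟩
    · rw [h0]
      conv_lhs => rw [hp]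
      simp [MvPolynomial.algebraMap_eq]
      ring
    · rw [h1]
      simp
  have hβ0 : β' ≠ 0 := (par_ne hs).2
  have hp0 : p ≠ 0 := by
    rintro rfl
    simp at hp
  obtain ⟨n, hn⟩ : ∃ n, n = p.natDegree := ⟨_, rfl⟩
  have hlead : p.coeff n ≠ 0 := by
    rw [hn]
    exact Polynomial.leadingCoeff_ne_zero.2 hp0
  have hdeg1 : (Polynomial.C β' * Polynomial.X + Polynomial.C ε).natDegree = 1 :=
    Polynomial.natDegree_linear hβ0
  have hcoefn : ∀ m : ℕ, 2 ≤ m → α' * p.coeff m =
      (p.comp (Polynomial.C β' * Polynomial.X + Polynomial.C ε)).coeff m := by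
    intro m hm
    have e5 := congrArg (fun q : Polynomial K => q.coeff m) e4
    simp only [Polynomial.coeff_add, Polynomial.coeff_C_mul, Polynomial.coeff_X,
      Polynomial.coeff_C] at e5
    have m0 : m ≠ 0 := by omega
    have m1 : 1 ≠ m := by omega
    simp only [if_neg m0, if_neg m1, mul_zero, add_zero, zero_add] at e5
    exact e5
  have hαβ : α' = β' ^ n := by
    have e5 := hcoefn n (by omega)
    have e6 : (p.comp (Polynomial.C β' * Polynomial.X + Polynomial.C ε)).coeff n =
        p.coeff n * β' ^ n := by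
      have := Polynomial.coeff_comp_degree_mul_degree
        (p := p) (q := Polynomial.C β' * Polynomial.X + Polynomial.C ε) (by rw [hdeg1]; exact one_ne_zero)
      rw [hdeg1, mul_one, ← hn] at this
      rw [this, Polynomial.leadingCoeff, ← hn, Polynomial.leadingCoeff_linear hβ0]
    rw [e6] at e5
    have : α' * p.coeff n = β' ^ n * p.coeff n := by rw [e5]; ring
    exact mul_right_cancel₀ hlead this
  refine ⟨rfl, rfl, ⟨n, by omega, hαβ⟩, ?_, ?_⟩
  · intro hch hβ1 hγ hγ'
    subst hβ1 hγ hγ'
    rw [one_pow] at hαβ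
    subst hαβ
    -- `p (T + ε) = p (T) + const`
    by_contra hε
    have hz : ∀ z : K, Polynomial.eval (z + ε) p = Polynomial.eval z p + (δ' - u * δ + 0 * c) := by
      intro z
      have g1 := ev (fun i => if i = 0 then 0 else z)
      simp at g1
      linear_combination -g1
    have hm : ∀ m : ℕ, Polynomial.eval ((m : K) * ε) p =
        Polynomial.eval 0 p + m * (δ' - u * δ + 0 * c) := by
      intro m
      induction m with
      | zero => simp
      | succ m ih =>
        have : ((m + 1 : ℕ) : K) * ε = (m : K) * ε + ε := by push_cast; ring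
        rw [this, hz, ih]
        push_cast
        ring
    have hq : p = Polynomial.C ((δ' - u * δ + 0 * c) / ε) * Polynomial.X +
        Polynomial.C (Polynomial.eval 0 p) := by
      refine Polynomial.eq_of_infinite_eval_eq _ _ (Set.Infinite.mono (s := Set.range fun m : ℕ => (m : K) * ε) ?_
        (Set.infinite_range_of_injective ?_))
      · rintro _ ⟨m, rfl⟩
        change _ = _
        rw [hm]
        simp
        field_simp
        ring
      · intro m m' hmm
        have := mul_right_cancel₀ hε hmm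
        exact_mod_cast this
    have : p.natDegree ≤ 1 := by
      rw [hq]
      exact Polynomial.natDegree_linear_le
    omega
  · intro hβ1 hε
    subst hβ1 hε
    linear_combination f3

end Pool.Agent.U293.PA
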