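import Pool.Agent.U293.PA.Basic

/-!
# Degrees
-/

set_option autoImplicit false

namespace Pool.Agent.U293.PA

open MvPolynomial

variable {K : Type} [Field K]

theorem aff_top {g : Au K} : g ∈ affG (⊤ : Subfield K) ↔ ∃ a b c d e f : K,
    g (X 0) = C a * X 0 + C b * X 1 + C e ∧ g (X 1) = C c * X 0 + C d * X 1 + C f := by
  constructor
  · rintro ⟨a, b, c, d, e, f, h0, h1⟩
    exact ⟨a, b, c, d, e, f, h0, h1⟩
  · rintro ⟨a, b, c, d, e, f, h0, h1⟩
    exact ⟨⟨a, trivial⟩, ⟨b, trivial⟩, ⟨c, trivial⟩, ⟨d, trivial⟩, ⟨e, trivial⟩, ⟨f, trivial⟩, h0, h1⟩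

theorem tri_top {g : Au K} : g ∈ triG (⊤ : Subfield K) ↔ ∃ (a b c : K) (p : Polynomial K),
    g (X 0) = C a * X 0 + Polynomial.aeval (X 1) p ∧ g (X 1) = C b * X 1 + C c := by
  constructor
  · rintro ⟨a, b, c, p, h0, h1⟩
    exact ⟨a, b, c, p.map (⊤ : Subfield K).subtype, h0, h1⟩
  · rintro ⟨a, b, c, p, h0, h1⟩
    refine ⟨⟨a, trivial⟩, ⟨b, trivial⟩, ⟨c, trivial⟩,
      p.map ((RingHom.id K).codRestrict (⊤ : Subfield K) fun _ => trivial), ?_, h1⟩
    rw [h0, Polynomial.map_map]
    have e1 : (⊤ : Subfield K).subtype.comp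
        ((RingHom.id K).codRestrict (⊤ : Subfield K) fun _ => trivial) = RingHom.id K := by
      ext x
      rfl
    rw [e1, Polynomial.map_id]

theorem affG_mono {k k' : Subfield K} (h : k ≤ k') : affG k ≤ affG k' := by
  rintro g ⟨a, b, c, d, e, f, h0, h1⟩
  exact ⟨⟨a, h a.2⟩, ⟨b, h b.2⟩, ⟨c, h c.2⟩, ⟨d, h d.2⟩, ⟨e, h e.2⟩, ⟨f, h f.2⟩, h0, h1⟩

theorem triG_mono {k k' : Subfield K} (h : k ≤ k') : triG k ≤ triG k' := by
  rintro g ⟨a, b, c, p, h0, h1⟩
  refine ⟨⟨a, h a.2⟩, ⟨b, h b.2⟩, ⟨c, h c.2⟩, p.map (Subfield.inclusion h), ?_, h1⟩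
  rw [h0, Polynomial.map_map]
  rfl

/-- two subgroups of the affine and the triangular group with the right intersection -/
structure Pair (A B : Subgroup (Au K)) : Prop where
  hA : A ≤ affG ⊤
  hB : B ≤ triG ⊤
  hAB : ∀ g ∈ A, g ∈ triG (⊤ : Subfield K) → g ∈ B
  hBA : ∀ g ∈ B, g ∈ affG (⊤ : Subfield K) → g ∈ A

theorem pair_of (k : Subfield K) : Pair (affG k) (triG k) where
  hA := affG_mono le_top
  hB := triG_mono le_top
  hAB := by
    rintro g ⟨a, b, c, d, e, f, h0, h1⟩ hg
    obtain ⟨a', b', c', p', h0', h1'⟩ := tri_top.1 hg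
    have hc : (c : K) = 0 := by
      have := lin_ext (a := (c : K)) (b := (d : K)) (e := (f : K)) (a' := 0) (b' := b') (e' := c')
        (by rw [← h1, h1']; simp)
      exact this.1
    refine ⟨a, d, f, Polynomial.C b * Polynomial.X + Polynomial.C e, ?_, ?_⟩
    · rw [h0]
      simp [MvPolynomial.algebraMap_eq]
      ring
    · rw [h1, hc]
      simp
  hBA := by
    rintro g ⟨a, b, c, p, h0, h1⟩ hg
    obtain ⟨a', b', c', d', e', f', h0', h1'⟩ := aff_top.1 hg
    have e1 : p.map k.subtype = Polynomial.C b' * Polynomial.X + Polynomial.C e' := by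
      have h2 := h0.symm.trans h0'
      have h3 := congrArg (aeval (fun i : Fin 2 => if i = 0 then (0 : Polynomial K) else
        Polynomial.X)) h2
      rw [map_add, map_mul, ← Polynomial.aeval_algHom_apply] at h3
      simpa [Polynomial.aeval_X_left_apply] using h3
    have e2 : (k.subtype (p.coeff 1)) = b' := by
      have := congrArg (fun q : Polynomial K => q.coeff 1) e1
      simpa using this
    have e3 : (k.subtype (p.coeff 0)) = e' := by
      have := congrArg (fun q : Polynomial K => q.coeff 0) e1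
      simpa using this
    refine ⟨a, p.coeff 1, 0, b, p.coeff 0, c, ?_, ?_⟩
    · rw [h0, e1, ← e2, ← e3]
      simp [MvPolynomial.algebraMap_eq]
      ring
    · rw [h1]
      simp

/-- total degree -/
abbrev dg (P : Rg K) : ℕ := P.totalDegree

theorem dg_Cmul {a : K} (ha : a ≠ 0) (P : Rg K) : dg (C a * P) = dg P := by
  by_cases hP : P = 0
  · rw [hP, mul_zero]
  · rw [dg, totalDegree_mul_of_isDomain (by rwa [Ne, C_eq_zero]) hP, totalDegree_C, zero_add]

theorem dg_Cmul_le (a : K) (P : Rg K) : dg (C a * P) ≤ dg P := by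
  by_cases ha : a = 0
  · rw [ha, C_0, zero_mul, dg, totalDegree_zero]
    exact Nat.zero_le _
  · exact (dg_Cmul ha P).le

theorem dg_pos {g : Au K} {P : Rg K} (h : ∀ c : K, P ≠ C c) : 1 ≤ dg (g P) := by
  by_contra hn
  have h0 : (g P).totalDegree = 0 := by
    have : dg (g P) = 0 := by omega
    exact this
  rw [totalDegree_eq_zero_iff_eq_C] at h0
  apply h _
  apply g.injective
  rw [h0, gC]

theorem X_ne_C (i : Fin 2) (c : K) : (X i : Rg K) ≠ C c := by
  intro h
  have h2 := congrArg (eval (fun _ => (0 : K))) h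
  have h3 := congrArg (eval (fun _ => (1 : K))) h
  simp at h2 h3
  rw [← h2] at h3
  exact one_ne_zero h3

theorem dg_X_pos (g : Au K) (i : Fin 2) : 1 ≤ dg (g (X i)) := dg_pos (X_ne_C i)

theorem dg_pow (P : Rg K) (n : ℕ) : dg (P ^ n) = n * dg P := by
  by_cases hP : P = 0
  · rw [hP]
    rcases Nat.eq_zero_or_pos n with rfl | hn
    · simp [dg]
    · rw [zero_pow hn.ne']
      simp [dg]
  · induction n with
    | zero => simp [dg]
    | succ n ih =>
      rw [pow_succ, dg, totalDegree_mul_of_isDomain (pow_ne_zero _ hP) hP]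
      change dg (P ^ n) + dg P = _
      rw [ih]
      ring

theorem dg_add_lt {P Q : Rg K} (h : dg P < dg Q) : dg (P + Q) = dg Q :=
  totalDegree_add_eq_right_of_totalDegree_lt h

theorem dg_add_le (P Q : Rg K) : dg (P + Q) ≤ max (dg P) (dg Q) := totalDegree_add P Q

theorem dg_C (a : K) : dg (C a : Rg K) = 0 := totalDegree_C a

theorem dg_aeval {P : Rg K} (hP : 1 ≤ dg P) (p : Polynomial K) :
    dg (Polynomial.aeval P p) = p.natDegree * dg P := by
  induction hn : p.natDegree using Nat.strong_induction_on generalizing p with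
  | _ n ih =>
    rcases Nat.eq_zero_or_pos n with rfl | hpos
    · rw [Polynomial.eq_C_of_natDegree_eq_zero hn, Polynomial.aeval_C, algebraMap_eq, dg_C,
        zero_mul]
    · have hp0 : p ≠ 0 := by
        rintro rfl
        simp at hn
        omega
      have h1 : p = p.eraseLead + Polynomial.C p.leadingCoeff * Polynomial.X ^ p.natDegree :=
        (Polynomial.eraseLead_add_C_mul_X_pow p).symm
      have h2 : dg (Polynomial.aeval P (Polynomial.C p.leadingCoeff * Polynomial.X ^ p.natDegree))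
          = n * dg P := by
        rw [map_mul, map_pow, Polynomial.aeval_C, Polynomial.aeval_X, algebraMap_eq,
          dg_Cmul (Polynomial.leadingCoeff_ne_zero.2 hp0), dg_pow, hn]
      have h3 : p.eraseLead.natDegree < n := by
        have := Polynomial.eraseLead_natDegree_le p
        omega
      have h4 := ih _ h3 p.eraseLead rfl
      have h5 : p.eraseLead.natDegree * dg P < n * dg P := by
        exact Nat.mul_lt_mul_of_pos_right h3 hP
      rw [h1, map_add, dg_add_lt (by rw [h4, h2]; exact h5), h2]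

/-- the degree of an automorphism -/
noncomputable def mx (g : Au K) : ℕ := max (dg (g (X 0))) (dg (g (X 1)))

theorem mx_pos (g : Au K) : 1 ≤ mx g := le_max_of_le_left (dg_X_pos g 0)

theorem dg_lin_le (g : Au K) (a b e : K) : dg (C a * g (X 0) + C b * g (X 1) + C e) ≤ mx g := by
  refine (dg_add_le _ _).trans (max_le ((dg_add_le _ _).trans (max_le ?_ ?_)) ?_)
  · exact (dg_Cmul_le _ _).trans (le_max_left _ _)
  · exact (dg_Cmul_le _ _).trans (le_max_right _ _)
  · rw [dg_C]
    exact Nat.zero_le _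

theorem mx_mul_le (g : Au K) {a : Au K} (ha : a ∈ affG (⊤ : Subfield K)) : mx (g * a) ≤ mx g := by
  obtain ⟨u, v, c, d, e, f, h0, h1⟩ := aff_top.1 ha
  refine max_le ?_ ?_
  · rw [AlgEquiv.mul_apply, h0, map_add, map_add, map_mul, map_mul, gC, gC, gC]
    exact dg_lin_le g _ _ _
  · rw [AlgEquiv.mul_apply, h1, map_add, map_add, map_mul, map_mul, gC, gC, gC]
    exact dg_lin_le g _ _ _

theorem mx_mul (g : Au K) {a : Au K} (ha : a ∈ affG (⊤ : Subfield K)) : mx (g * a) = mx g := by
  refine le_antisymm (mx_mul_le g ha) ?_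
  have := mx_mul_le (g * a) (inv_mem ha)
  rwa [mul_inv_cancel_right] at this

theorem dg_tri_le (g : Au K) {b : Au K} (hb : b ∈ triG (⊤ : Subfield K)) :
    dg ((g * b) (X 1)) ≤ dg (g (X 1)) := by
  obtain ⟨u, v, c, p, h0, h1⟩ := tri_top.1 hb
  rw [AlgEquiv.mul_apply, h1, map_add, map_mul, gC, gC]
  refine (dg_add_le _ _).trans (max_le (dg_Cmul_le _ _) ?_)
  rw [dg_C]
  exact Nat.zero_le _

theorem dg_tri (g : Au K) {b : Au K} (hb : b ∈ triG (⊤ : Subfield K)) :
    dg ((g * b) (X 1)) = dg (g (X 1)) := by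
  refine le_antisymm (dg_tri_le g hb) ?_
  have := dg_tri_le (g * b) (inv_mem hb)
  rwa [mul_inv_cancel_right] at this

/-- a triangular automorphism which is not affine raises the degree -/
theorem dg_big (g : Au K) {b : Au K} (hb : b ∈ triG (⊤ : Subfield K))
    (hba : b ∉ affG (⊤ : Subfield K)) (hg : dg (g (X 0)) ≤ dg (g (X 1))) :
    dg (g (X 1)) < dg ((g * b) (X 0)) := by
  obtain ⟨u, v, c, p, h0, h1⟩ := tri_top.1 hb
  have hp : 2 ≤ p.natDegree := by
    by_contra hlt
    apply hba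
    have hp : p = Polynomial.C (p.coeff 1) * Polynomial.X + Polynomial.C (p.coeff 0) :=
      Polynomial.eq_X_add_C_of_natDegree_le_one (by omega)
    refine aff_top.2 ⟨u, p.coeff 1, 0, v, p.coeff 0, c, ?_, ?_⟩
    · rw [h0]
      conv_lhs => rw [hp]
      simp [MvPolynomial.algebraMap_eq]
      ring
    · rw [h1]
      simp
  have hpos := dg_X_pos g 1
  have h2 : dg (g (X 1)) < dg (Polynomial.aeval (g (X 1)) p) := by
    rw [dg_aeval hpos]
    nlinarith
  rw [AlgEquiv.mul_apply, h0, map_add, map_mul, gC, g_aeval,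
    dg_add_lt (lt_of_le_of_lt (dg_Cmul_le _ _) (lt_of_le_of_lt hg h2))]
  exact h2

/-- at most one direction has lower degree -/
theorem low_unique (g : Au K) {a a' : Au K} (ha : a ∈ affG (⊤ : Subfield K))
    (ha' : a' ∈ affG (⊤ : Subfield K)) (h : dg ((g * a) (X 1)) < mx g)
    (h' : dg ((g * a') (X 1)) < mx g) : a⁻¹ * a' ∈ triG (⊤ : Subfield K) := by
  obtain ⟨u, v, c, d, e, f, h0, h1⟩ := aff_top.1 ha
  obtain ⟨u', v', c', d', e', f', h0', h1'⟩ := aff_top.1 ha'
  have e1 : (g * a) (X 1) = C c * g (X 0) + C d * g (X 1) + C f := by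
    rw [AlgEquiv.mul_apply, h1, map_add, map_add, map_mul, map_mul, gC, gC, gC]
  have e1' : (g * a') (X 1) = C c' * g (X 0) + C d' * g (X 1) + C f' := by
    rw [AlgEquiv.mul_apply, h1', map_add, map_add, map_mul, map_mul, gC, gC, gC]
  have hD := det_ne h0 h1
  have hm : 1 ≤ mx g := mx_pos g
  have hdep : c * d' - d * c' = 0 := by
    by_contra hne
    obtain ⟨D, hDD⟩ : ∃ D : K, D = c * d' - d * c' := ⟨_, rfl⟩
    rw [← hDD] at hne
    have i0 : dg (g (X 0)) < mx g := by
      have : C D * g (X 0) = C d' * ((g * a) (X 1)) + C (-d) * ((g * a') (X 1))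
          + C (d * f' - d' * f) := by
        rw [e1, e1', hDD]
        simp only [C_sub, C_mul, C_neg]
        ring
      rw [← dg_Cmul hne, this]
      refine lt_of_le_of_lt (dg_add_le _ _) (max_lt (lt_of_le_of_lt (dg_add_le _ _)
        (max_lt ?_ ?_)) ?_)
      · exact lt_of_le_of_lt (dg_Cmul_le _ _) h
      · exact lt_of_le_of_lt (dg_Cmul_le _ _) h'
      · rw [dg_C]; omega
    have i1 : dg (g (X 1)) < mx g := by
      have : C D * g (X 1) = C (-c') * ((g * a) (X 1)) + C c * ((g * a') (X 1))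
          + C (c' * f - c * f') := by
        rw [e1, e1', hDD]
        simp only [C_sub, C_mul, C_neg]
        ring
      rw [← dg_Cmul hne, this]
      refine lt_of_le_of_lt (dg_add_le _ _) (max_lt (lt_of_le_of_lt (dg_add_le _ _)
        (max_lt ?_ ?_)) ?_)
      · exact lt_of_le_of_lt (dg_Cmul_le _ _) h
      · exact lt_of_le_of_lt (dg_Cmul_le _ _) h'
      · rw [dg_C]; omega
    exact absurd (max_lt i0 i1) (lt_irrefl _)
  -- `a' X1 = λ a X1 + μ`
  obtain ⟨l, hl⟩ : ∃ l : K, c' = l * c ∧ d' = l * d := by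
    by_cases hc : c = 0
    · have hd : d ≠ 0 := by
        rintro rfl
        apply hD
        rw [hc]; ring
      refine ⟨d' / d, ?_, ?_⟩
      · rw [hc, zero_mul, zero_sub, neg_eq_zero] at hdep
        rcases mul_eq_zero.1 hdep with h2 | h2
        · exact absurd h2 hd
        · rw [h2, hc]; ring
      · field_simp
    · refine ⟨c' / c, ?_, ?_⟩
      · field_simp
      · field_simp
        linear_combination hdep
  have hmem : a⁻¹ * a' ∈ affG (⊤ : Subfield K) := mul_mem (inv_mem ha) ha'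
  obtain ⟨u2, v2, c2, d2, e2, f2, h02, h12⟩ := aff_top.1 hmem
  have e3 : (a⁻¹ * a') (X 1) = C l * X 1 + C (f' - l * f) := by
    rw [AlgEquiv.mul_apply, h1', hl.1, hl.2]
    have : (C (l * c) * X 0 + C (l * d) * X 1 + C f' : Rg K)
        = C l * a (X 1) + C (f' - l * f) := by
      rw [h1]
      simp only [C_sub, C_mul]
      ring
    rw [this, map_add, map_mul, gC, gC, inv_ap]
  refine tri_top.2 ⟨u2, l, f' - l * f, Polynomial.C v2 * Polynomial.X + Polynomial.C e2, ?_, e3⟩
  rw [h02]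
  simp [MvPolynomial.algebraMap_eq]
  ring

end Pool.Agent.U293.PA
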